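import Mathlib
import Pool.Agent.FQW.Targets
import Pool.Agent.CMT.Divis
import Pool.Agent.CMTP.Field

set_option autoImplicit false

/-!
# Real multiplication by almost all totally real fields: definitions and targets

Totally real fields generated by algebraic integers with all conjugates in `[-2 √q, 2 √q]`, degree to
infinity; all CM fields with such a maximal real subfield, all CM types, all Weil numbers.
-/

namespace Pool.Agent.RFC

open Polynomial Finset NumberField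
open Pool.Agent.CMT (QBar IsCMType TateByDivisors cc)
open Pool.Agent.CMTP (HG toPerm)
open Pool.Agent.AWP (poly IsRealWeil)
open Pool.Agent.FQW (HZ P idx)
open scoped BigOperators

/-! ## Definitions -/

/-- an automorphism permutes `p` roots cyclically and fixes the other roots -/
def LongCycle (p : ℕ) {g : ℕ} (b : Fin g → ℤ) : Prop :=
  ∃ (τ : QBar ≃+* QBar) (ρ : ZMod p → QBar), Function.Injective ρ ∧
    (∀ k, aeval (ρ k) (poly b) = 0) ∧ (∀ k, τ (ρ k) = ρ (k + 1)) ∧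
    ∀ β : QBar, aeval β (poly b) = 0 → (∀ k, β ≠ ρ k) → τ β = β

/-- irreducible, with a long cycle of prime length -/
def Long {g : ℕ} (b : Fin g → ℤ) : Prop :=
  Irreducible (poly b) ∧ ∃ p : ℕ, p.Prime ∧ 3 ≤ p ∧ g < 2 * p ∧ p < g ∧ LongCycle p b

/-- `K` contains `δ = √-r`, `r > 0` rational, and each of the two conjugates of `δ` is its image
under half of the members of the CM type `Φ` -/
def Balanced {K : Type} [Field K] [NumberField K] (Φ : Finset (K →+* QBar)) : Prop :=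
  ∃ (δ : K) (r : ℚ), 0 < r ∧ δ ^ 2 = -(r : K) ∧ ∀ s : QBar, s ^ 2 = -(r : QBar) →
    2 * {φ : K →+* QBar | φ ∈ Φ ∧ φ δ = s}.ncard = Φ.card

/-- for every CM field of degree `2 g` which contains a root of the polynomial with the coefficients
`b`, and for every CM type of this field: all Tate classes on all powers are generated by divisor
classes, or the type is balanced over an imaginary quadratic subfield -/
def GoodCM {g : ℕ} (b : Fin g → ℤ) : Prop :=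
  ∀ (K : Type) [Field K] [NumberField K] [IsCMField K], Module.finrank ℚ K = 2 * g →
    (∃ β : K, aeval β (poly b) = 0) → ∀ Φ : Finset (K →+* QBar), IsCMType K Φ →
      TateByDivisors Φ ∨ Balanced Φ

/-- Weil numbers of the CM field `K` -/
def IsWeil {K : Type} [Field K] [NumberField K] [IsCMField K] (q : ℕ) (π : K) : Prop :=
  IsIntegral ℤ π ∧ π * IsCMField.complexConj K π = q

/-- Tate weights of codimension `i` on the `n`-th power: sets of `2 i` eigenlines (embedding, index)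
such that the product of the eigenvalues is `q ^ i` times a root of unity -/
def WTateWeight {K : Type} [Field K] (q : ℕ) (π : K) {n : ℕ} (i : ℕ)
    (Δ : Finset ((K →+* QBar) × Fin n)) : Prop :=
  Δ.card = 2 * i ∧ ∃ N : ℕ, 0 < N ∧ (∏ x ∈ Δ, x.1 π) ^ N = (q : QBar) ^ (i * N)

/-- disjoint unions of Tate weights of codimension one -/
def WDivisorial {K : Type} [Field K] (q : ℕ) (π : K) {n : ℕ}
    (Δ : Finset ((K →+* QBar) × Fin n)) : Prop :=
  ∃ D : Finset (Finset ((K →+* QBar) × Fin n)),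
    (D : Set (Finset ((K →+* QBar) × Fin n))).PairwiseDisjoint id ∧
    (∀ x, x ∈ Δ ↔ ∃ B ∈ D, x ∈ B) ∧ ∀ B ∈ D, WTateWeight q π 1 B

/-- all Tate classes, of all codimensions on all powers, are generated by divisor classes -/
def WTateByDivisors {K : Type} [Field K] (q : ℕ) (π : K) : Prop :=
  ∀ (n i : ℕ) (Δ : Finset ((K →+* QBar) × Fin n)), WTateWeight q π i Δ → WDivisorial q π Δ

open Classical in
/-- `K` contains `δ = √-r`, `r > 0` rational, and the fourth power of the norm of `π` from `K` to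
`ℚ(δ)` is `q ^ [K : ℚ]` up to a root of unity -/
def WBalanced {K : Type} [Field K] [NumberField K] (q : ℕ) (π : K) : Prop :=
  ∃ (δ : K) (r : ℚ), 0 < r ∧ δ ^ 2 = -(r : K) ∧ ∀ s : QBar, s ^ 2 = -(r : QBar) →
    ∃ N : ℕ, 0 < N ∧ (∏ φ ∈ univ.filter (fun φ : K →+* QBar => φ δ = s), φ π) ^ (4 * N) =
      (q : QBar) ^ (Module.finrank ℚ K * N)

/-- for every CM field of degree `2 g` which contains a root of the polynomial with the coefficients
`b`, and all its Weil numbers: all Tate classes on all powers are generated by divisor classes, or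
the Weil number is balanced over an imaginary quadratic subfield -/
def GoodW {g : ℕ} (b : Fin g → ℤ) : Prop :=
  ∀ (K : Type) [Field K] [NumberField K] [IsCMField K], Module.finrank ℚ K = 2 * g →
    (∃ β : K, aeval β (poly b) = 0) → ∀ (q : ℕ) (π : K), 0 < q → IsWeil q π →
      WTateByDivisors q π ∨ WBalanced q π

/-! ## Targets -/

/-- ABS: the classification -/
def T_ABS : Prop := ∀ (X : Type) [Fintype X] [DecidableEq X] (ι : X → X)
  (G : Subgroup (Equiv.Perm X)) (W : Type) [AddCommGroup W] [Module ℚ W] (L : X → W) (c : W)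
  (p g : ℕ) (τ : Equiv.Perm X) (ρ : ZMod p → X) (e : X → ℤ),
  Fintype.card X = 2 * g → p.Prime → 3 ≤ p → g < 2 * p →
  (∀ x, ι (ι x) = x) → (∀ x, ι x ≠ x) → (∀ s ∈ G, ∀ x, s (ι x) = ι (s x)) →
  (∀ x y, ∃ s ∈ G, s x = y) → τ ∈ G → Function.Injective ρ → (∀ k l, ρ k ≠ ι (ρ l)) →
  (∀ k, τ (ρ k) = ρ (k + 1)) → (∀ x, (∀ k, x ≠ ρ k ∧ x ≠ ι (ρ k)) → τ x = x) →
  (∀ x, L (ι x) = c - L x) → (∀ s ∈ G, ∀ x y, L x = L y → L (s x) = L (s y)) →
  (∀ x, e (ι x) = -e x) → (∀ s ∈ G, ∑ x, e x • L (s x) = 0) → (∃ x, e x ≠ 0) →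
    (∀ x, L x = L (ι x)) ∨ ∃ C : Finset X, (∀ x, x ∈ C ↔ ι x ∉ C) ∧
      (∀ s ∈ G, (∀ x, s x ∈ C ↔ x ∈ C) ∨ ∀ x, s x ∈ C ↔ x ∉ C) ∧
      ((∀ x ∈ C, ∀ y ∈ C, L x = L y) ∨ ∃ m : ℤ, m ≠ 0 ∧ ∀ x, e x = if x ∈ C then m else -m)

/-- EMB: the cycle on the embeddings of a CM field -/
def T_EMB : Prop := ∀ (g p : ℕ), p.Prime → 3 ≤ p → g < 2 * p → ∀ b : Fin g → ℤ,
  Irreducible (poly b) → (∀ z : ℂ, aeval z (poly b) = 0 → ∃ y : ℝ, z = y) → LongCycle p b →
  ∀ (K : Type) [Field K] [NumberField K] [IsCMField K], Module.finrank ℚ K = 2 * g →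
  (∃ β : K, aeval β (poly b) = 0) → ∃ (τ : QBar ≃+* QBar) (ρ : ZMod p → (K →+* QBar)),
    Function.Injective ρ ∧ (∀ k l, ρ k ≠ cc (ρ l)) ∧ (∀ k, toPerm K τ (ρ k) = ρ (k + 1)) ∧
    ∀ φ, (∀ k, φ ≠ ρ k ∧ φ ≠ cc (ρ k)) → toPerm K τ φ = φ

/-- QUAD: an invariant half system comes from an imaginary quadratic subfield -/
def T_QUAD : Prop := ∀ (K : Type) [Field K] [NumberField K] [IsCMField K]
  (C : Finset (K →+* QBar)), (∀ φ, φ ∈ C ↔ cc φ ∉ C) →
  (∀ s ∈ HG K, (∀ φ, s φ ∈ C ↔ φ ∈ C) ∨ ∀ φ, s φ ∈ C ↔ φ ∉ C) →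
    ∃ (δ : K) (r : ℚ), 0 < r ∧ δ ^ 2 = -(r : K) ∧ ∃ s₀ : QBar, s₀ ^ 2 = -(r : QBar) ∧
      ∀ φ, φ ∈ C ↔ φ δ = s₀

/-- HALF: types induced from an imaginary quadratic subfield -/
def T_HALF : Prop := ∀ (K : Type) [Field K] [NumberField K] [IsCMField K]
  (C : Finset (K →+* QBar)), (∀ φ, φ ∈ C ↔ cc φ ∉ C) →
  (∀ s ∈ HG K, (∀ φ, s φ ∈ C ↔ φ ∈ C) ∨ ∀ φ, s φ ∈ C ↔ φ ∉ C) → TateByDivisors C

/-- CMC: CM types -/
def T_CMC : Prop := ∀ (g : ℕ) (b : Fin g → ℤ), Long b →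
  (∀ z : ℂ, aeval z (poly b) = 0 → ∃ y : ℝ, z = y) → GoodCM b

/-- WC: Weil numbers -/
def T_WC : Prop := ∀ (g : ℕ) (b : Fin g → ℤ), Long b →
  (∀ z : ℂ, aeval z (poly b) = 0 → ∃ y : ℝ, z = y) → GoodW b

/-- LCELL: in one box almost all real Weil polynomials have a long cycle -/
def T_LCELL : Prop := ∀ q : ℕ, 2 ≤ q → ∃ γ c : ℝ, 0 < γ ∧ 0 < c ∧ ∃ g₀ : ℕ, ∀ g : ℕ, g₀ ≤ g →
  ∃ n : ℕ, n ≤ g ∧ g ≤ 2 * n ∧ ∃ B : Fin n → ℕ, (∀ j, 1 ≤ B j) ∧
  (∀ j : Fin n, (B j : ℝ) ≤ √(q : ℝ) ^ (g - (j : ℕ)) * Real.exp (-(γ * g))) ∧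
  ∀ d : Fin g → ℤ,
    (({a ∈ P q g | idx n B a = d ∧ ¬ ∀ b : Fin g → ℤ, poly b = HZ q a → Long b}.ncard : ℕ) : ℝ) ≤
      Real.exp (-(c * g)) * ∏ j, (B j : ℝ)

/-- DENS: almost all real Weil polynomials are irreducible with a long cycle -/
def T_DENS : Prop := ∀ q : ℕ, 2 ≤ q → ∃ c : ℝ, 0 < c ∧ ∃ g₀ : ℕ, ∀ g : ℕ, g₀ ≤ g →
  {b : Fin g → ℤ | IsRealWeil q b}.Finite ∧ 0 < {b : Fin g → ℤ | IsRealWeil q b}.ncard ∧
  (({b : Fin g → ℤ | IsRealWeil q b ∧ ¬ Long b}.ncard : ℕ) : ℝ) ≤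
    Real.exp (-(c * g)) * ({b : Fin g → ℤ | IsRealWeil q b}.ncard : ℕ)

end Pool.Agent.RFC
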