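import Mathlib
import Pool.Agent.RFC.Targets

set_option autoImplicit false

/-!
# Weil classes: the refined statements

In the exceptional case (Weil type) all Tate weights are disjoint unions of Tate weights of codimension
one and Weil weights; in particular there is no exception in codimensions below `g / 2`.
-/

namespace Pool.Agent.RFC

open Polynomial Finset NumberField
open Pool.Agent.CMT (QBar IsCMType TateByDivisors TateWeight Divisorial cc)
open Pool.Agent.CMTP (HG toPerm)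
open Pool.Agent.AWP (poly IsRealWeil)
open scoped BigOperators

/-! ## Definitions -/

/-- Weil weights: one index for each embedding `φ` with `φ δ = φ₀ δ` (eigenlines of the exterior
powers, over the imaginary quadratic field `ℚ(δ)`, of the cohomology of the powers) -/
def WeilWeight {K : Type} [Field K] (δ : K) {n : ℕ} (B : Finset ((K →+* QBar) × Fin n)) : Prop :=
  ∃ (φ₀ : K →+* QBar) (f : (K →+* QBar) → Fin n), ∀ x, x ∈ B ↔ x.1 δ = φ₀ δ ∧ x.2 = f x.1

/-- `K` contains `δ = √-r`, `r > 0` rational, each of the two conjugates of `δ` is its image under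
half of the members of `Φ`, and every Tate weight on every power is a disjoint union of Tate weights
of codimension one and Weil weights -/
def WeilType {K : Type} [Field K] [NumberField K] (Φ : Finset (K →+* QBar)) : Prop :=
  ∃ (δ : K) (r : ℚ), 0 < r ∧ δ ^ 2 = -(r : K) ∧
    (∀ s : QBar, s ^ 2 = -(r : QBar) →
      2 * {φ : K →+* QBar | φ ∈ Φ ∧ φ δ = s}.ncard = Φ.card) ∧
    ∀ (n i : ℕ) (Δ : Finset ((K →+* QBar) × Fin n)), TateWeight Φ i Δ →
      ∃ D : Finset (Finset ((K →+* QBar) × Fin n)),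
        (D : Set (Finset ((K →+* QBar) × Fin n))).PairwiseDisjoint id ∧
        (∀ x, x ∈ Δ ↔ ∃ B ∈ D, x ∈ B) ∧ ∀ B ∈ D, TateWeight Φ 1 B ∨ WeilWeight δ B

/-- for every CM field of degree `2 g` which contains a root of the polynomial with the coefficients
`b`, and for every CM type of this field: all Tate weights on all powers are disjoint unions of Tate
weights of codimension one, or the type is a Weil type; and Tate weights of codimension `i < g / 2`
are always disjoint unions of Tate weights of codimension one -/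
def GoodCM2 {g : ℕ} (b : Fin g → ℤ) : Prop :=
  ∀ (K : Type) [Field K] [NumberField K] [IsCMField K], Module.finrank ℚ K = 2 * g →
    (∃ β : K, aeval β (poly b) = 0) → ∀ Φ : Finset (K →+* QBar), IsCMType K Φ →
      (TateByDivisors Φ ∨ WeilType Φ) ∧
      ∀ (n i : ℕ) (Δ : Finset ((K →+* QBar) × Fin n)), 2 * i < g → TateWeight Φ i Δ →
        Divisorial Φ Δ

open Classical in
/-- `K` contains `δ = √-r`, `r > 0` rational, the fourth power of the norm of `π` from `K` to `ℚ(δ)`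
is `q ^ [K : ℚ]` up to a root of unity, and every Tate weight on every power is a disjoint union of
Tate weights of codimension one and Weil weights -/
def WWeilType {K : Type} [Field K] [NumberField K] (q : ℕ) (π : K) : Prop :=
  ∃ (δ : K) (r : ℚ), 0 < r ∧ δ ^ 2 = -(r : K) ∧
    (∀ s : QBar, s ^ 2 = -(r : QBar) →
      ∃ N : ℕ, 0 < N ∧ (∏ φ ∈ univ.filter (fun φ : K →+* QBar => φ δ = s), φ π) ^ (4 * N) =
        (q : QBar) ^ (Module.finrank ℚ K * N)) ∧
    ∀ (n i : ℕ) (Δ : Finset ((K →+* QBar) × Fin n)), WTateWeight q π i Δ →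
      ∃ D : Finset (Finset ((K →+* QBar) × Fin n)),
        (D : Set (Finset ((K →+* QBar) × Fin n))).PairwiseDisjoint id ∧
        (∀ x, x ∈ Δ ↔ ∃ B ∈ D, x ∈ B) ∧ ∀ B ∈ D, WTateWeight q π 1 B ∨ WeilWeight δ B

/-- for every CM field of degree `2 g` which contains a root of the polynomial with the coefficients
`b`, and all its Weil numbers: all Tate weights on all powers are disjoint unions of Tate weights of
codimension one, or the Weil number is of Weil type; and Tate weights of codimension `i < g / 2` are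
always disjoint unions of Tate weights of codimension one -/
def GoodW2 {g : ℕ} (b : Fin g → ℤ) : Prop :=
  ∀ (K : Type) [Field K] [NumberField K] [IsCMField K], Module.finrank ℚ K = 2 * g →
    (∃ β : K, aeval β (poly b) = 0) → ∀ (q : ℕ) (π : K), 0 < q → IsWeil q π →
      (WTateByDivisors q π ∨ WWeilType q π) ∧
      ∀ (n i : ℕ) (Δ : Finset ((K →+* QBar) × Fin n)), 2 * i < g → WTateWeight q π i Δ →
        WDivisorial q π Δ

/-! ## Targets -/

/-- ABS2: the classification of the module of relations -/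
def T_ABS2 : Prop := ∀ (X : Type) [Fintype X] [DecidableEq X] (ι : X → X)
  (G : Subgroup (Equiv.Perm X)) (W : Type) [AddCommGroup W] [Module ℚ W] (L : X → W) (c : W)
  (p g : ℕ) (τ : Equiv.Perm X) (ρ : ZMod p → X),
  Fintype.card X = 2 * g → p.Prime → 3 ≤ p → g < 2 * p →
  (∀ x, ι (ι x) = x) → (∀ x, ι x ≠ x) → (∀ s ∈ G, ∀ x, s (ι x) = ι (s x)) →
  (∀ x y, ∃ s ∈ G, s x = y) → τ ∈ G → Function.Injective ρ → (∀ k l, ρ k ≠ ι (ρ l)) →
  (∀ k, τ (ρ k) = ρ (k + 1)) → (∀ x, (∀ k, x ≠ ρ k ∧ x ≠ ι (ρ k)) → τ x = x) →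
  (∀ x, L (ι x) = c - L x) → (∀ s ∈ G, ∀ x y, L x = L y → L (s x) = L (s y)) →
    (∀ e : X → ℤ, (∀ x, e (ι x) = -e x) → (∀ s ∈ G, ∑ x, e x • L (s x) = 0) → ∀ x, e x = 0) ∨
    (∀ x, L x = L (ι x)) ∨ ∃ C : Finset X, (∀ x, x ∈ C ↔ ι x ∉ C) ∧
      (∀ s ∈ G, (∀ x, s x ∈ C ↔ x ∈ C) ∨ ∀ x, s x ∈ C ↔ x ∉ C) ∧
      ((∀ x ∈ C, ∀ y ∈ C, L x = L y) ∨
        ((∀ s ∈ G, ∑ x, (if x ∈ C then (1 : ℤ) else -1) • L (s x) = 0) ∧
        ∀ e : X → ℤ, (∀ x, e (ι x) = -e x) → (∀ s ∈ G, ∑ x, e x • L (s x) = 0) →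
          ∃ t : ℤ, ∀ x, e x = if x ∈ C then t else -t))

/-- SPLIT: sections over a half system and pairs -/
def T_SPLIT : Prop := ∀ (X : Type) [Fintype X] [DecidableEq X] (ι : X → X) (C : Finset X)
  (n t : ℕ) (Δ : Finset (X × Fin n)), (∀ x, ι (ι x) = x) → (∀ x, x ∈ C ↔ ι x ∉ C) →
  (∀ x ∈ C, {j : Fin n | (x, j) ∈ Δ}.ncard = {j : Fin n | (ι x, j) ∈ Δ}.ncard + t) →
    ∃ D : Finset (Finset (X × Fin n)), (D : Set (Finset (X × Fin n))).PairwiseDisjoint id ∧
      (∀ x, x ∈ Δ ↔ ∃ B ∈ D, x ∈ B) ∧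
      ∀ B ∈ D, (∃ (x : X) (j l : Fin n), ∀ y, y ∈ B ↔ y = (x, j) ∨ y = (ι x, l)) ∨
        ∃ f : X → Fin n, ∀ y, y ∈ B ↔ y.1 ∈ C ∧ y.2 = f y.1

/-- LOW: disjoint unions of Weil weights and pairs with less than `g` elements -/
def T_LOW : Prop := ∀ (K : Type) [Field K] [NumberField K] [IsCMField K] (g n i : ℕ) (δ : K)
  (r : ℚ) (D : Finset (Finset ((K →+* QBar) × Fin n))) (Δ : Finset ((K →+* QBar) × Fin n)),
  Module.finrank ℚ K = 2 * g → 0 < r → δ ^ 2 = -(r : K) → 2 * i < g → Δ.card = 2 * i →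
  (∀ x, x ∈ Δ ↔ ∃ B ∈ D, x ∈ B) → ∀ B ∈ D, ¬ WeilWeight δ B

/-- CMC2: CM types -/
def T_CMC2 : Prop := ∀ (g : ℕ) (b : Fin g → ℤ), Long b →
  (∀ z : ℂ, aeval z (poly b) = 0 → ∃ y : ℝ, z = y) → GoodCM2 b

/-- WC2: Weil numbers -/
def T_WC2 : Prop := ∀ (g : ℕ) (b : Fin g → ℤ), Long b →
  (∀ z : ℂ, aeval z (poly b) = 0 → ∃ y : ℝ, z = y) → GoodW2 b

end Pool.Agent.RFC
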