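import Mathlib
import Pool.Agent.RFC.Targets
import Pool.Agent.FQW.LogV

set_option autoImplicit false
set_option linter.unusedSectionVars false
set_option linter.unusedVariables false

/-!
# WC: Weil numbers (assembly)
-/

namespace Pool.Agent.RFC

open Polynomial Finset NumberField
open Pool.Agent.CMT (QBar IsCMType TateByDivisors cc cc_cc idx mem_idx)
open Pool.Agent.CMTP (HG toPerm toPerm_apply cc_ne hg_cc transitive)
open Pool.Agent.AWP (poly IsRealWeil)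
open Pool.Agent.FQW (Lg Lg_mul Lg_div Lg_prod Lg_pow Lg_eq Lg_eq_zero Lg_map VQ)
open scoped BigOperators

namespace WC_

/-! ## Decompositions into pairs -/

section pairs

variable {K : Type} [Field K] {q : ℕ} {π : K} {n : ℕ}

/-- a bijection between the two parts of a set of eigenlines gives a decomposition into pairs -/
theorem of_bij (Δ A A' : Finset ((K →+* QBar) × Fin n)) (hdisj : ∀ x ∈ A, x ∉ A')
    (hΔ : ∀ x, x ∈ Δ ↔ x ∈ A ∨ x ∈ A')
    (f : (K →+* QBar) × Fin n → (K →+* QBar) × Fin n) (hf : Set.BijOn f A A')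
    (hw : ∀ x ∈ A, ∃ N : ℕ, 0 < N ∧ (x.1 π * (f x).1 π) ^ N = (q : QBar) ^ N) :
    WDivisorial q π Δ := by
  classical
  have hfm : ∀ x ∈ A, f x ∈ A' := fun x hx => hf.mapsTo hx
  refine ⟨A.image (fun x => {x, f x}), ?_, ?_, ?_⟩
  · intro B hB B' hB' hne
    rw [Finset.mem_coe, Finset.mem_image] at hB hB'
    obtain ⟨x, hx, rfl⟩ := hB
    obtain ⟨y, hy, rfl⟩ := hB'
    have hxy : x ≠ y := by
      rintro rfl
      exact hne rfl
    show Disjoint ({x, f x} : Finset _) ({y, f y} : Finset _)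
    rw [Finset.disjoint_left]
    intro z hz hz'
    rw [Finset.mem_insert, Finset.mem_singleton] at hz hz'
    rcases hz with rfl | rfl
    · rcases hz' with h | h
      · exact hxy h
      · exact hdisj z hx (h ▸ hfm y hy)
    · rcases hz' with h | h
      · exact hdisj y hy (h ▸ hfm x hx)
      · exact hxy (hf.injOn hx hy h)
  · intro x
    rw [hΔ]
    constructor
    · rintro (h | h)
      · exact ⟨{x, f x}, Finset.mem_image_of_mem _ h, by simp⟩
      · obtain ⟨a, ha, rfl⟩ := hf.surjOn h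
        exact ⟨{a, f a}, Finset.mem_image_of_mem _ ha, by simp⟩
    · rintro ⟨B, hB, hx⟩
      rw [Finset.mem_image] at hB
      obtain ⟨a, ha, rfl⟩ := hB
      rw [Finset.mem_insert, Finset.mem_singleton] at hx
      rcases hx with rfl | rfl
      · exact Or.inl ha
      · exact Or.inr (hfm a ha)
  · intro B hB
    rw [Finset.mem_image] at hB
    obtain ⟨x, hx, rfl⟩ := hB
    have hne : x ≠ f x := fun h => hdisj x hx (h ▸ hfm x hx)
    obtain ⟨N, hN, h⟩ := hw x hx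
    refine ⟨by rw [Finset.card_pair hne], N, hN, ?_⟩
    rw [Finset.prod_pair hne, one_mul]
    exact h

/-- classes with sum `Lg q`: the product is `q` up to a root of unity -/
theorem pow_of_Lg {α β : QBar} (hq : 0 < q) (hα : α ≠ 0) (hβ : β ≠ 0)
    (h : Lg α + Lg β = Lg (q : QBar)) : ∃ N : ℕ, 0 < N ∧ (α * β) ^ N = (q : QBar) ^ N := by
  have hq' : (q : QBar) ≠ 0 := by exact_mod_cast hq.ne'
  rw [← Lg_mul hα hβ, Lg_eq (mul_ne_zero hα hβ) hq'] at h
  obtain ⟨N, hN, h1⟩ := h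
  refine ⟨N, hN, ?_⟩
  rw [div_pow, div_eq_one_iff_eq (pow_ne_zero N hq')] at h1
  exact h1

/-- equal cardinalities -/
theorem of_card (hq : 0 < q) (hπ : π ≠ 0) (Δ A A' : Finset ((K →+* QBar) × Fin n))
    (hdisj : ∀ x ∈ A, x ∉ A')
    (hΔ : ∀ x, x ∈ Δ ↔ x ∈ A ∨ x ∈ A') (hcard : A.card = A'.card)
    (hw : ∀ x ∈ A, ∀ y ∈ A', Lg (x.1 π) + Lg (y.1 π) = Lg (q : QBar)) :
    WDivisorial q π Δ := by
  classical
  have hne : ∀ φ : K →+* QBar, φ π ≠ 0 := fun φ => (map_ne_zero φ).mpr hπ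
  let f := Finset.equivOfCardEq hcard
  have hf : Set.BijOn (fun x => if hx : x ∈ A then (f ⟨x, hx⟩).1 else x) A A' := by
    refine ⟨?_, ?_, ?_⟩
    · intro j hj
      have hj' : j ∈ A := hj
      simp only [dif_pos hj']
      exact (f ⟨j, hj'⟩).2
    · intro j hj l hl hjl
      have hj' : j ∈ A := hj
      have hl' : l ∈ A := hl
      simp only [dif_pos hj', dif_pos hl'] at hjl
      have := f.injective (Subtype.ext hjl)
      exact congrArg Subtype.val this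
    · intro l hl
      have hl' : l ∈ A' := hl
      refine ⟨(f.symm ⟨l, hl'⟩).1, (f.symm ⟨l, hl'⟩).2, ?_⟩
      have hj' : (f.symm ⟨l, hl'⟩).1 ∈ A := (f.symm ⟨l, hl'⟩).2
      simp only [dif_pos hj']
      rw [Subtype.coe_eta, Equiv.apply_symm_apply]
  refine of_bij Δ A A' hdisj hΔ _ hf ?_
  intro x hx
  exact pow_of_Lg hq (hne _) (hne _) (hw x hx _ (hf.mapsTo hx))

end pairs

section main

variable {K : Type} [Field K] [NumberField K] [IsCMField K] {q : ℕ} {π : K}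

theorem mul_cc (hπ : IsWeil q π) (φ : K →+* QBar) : φ π * (cc φ) π = (q : QBar) := by
  have h4 : (cc φ) π = φ (IsCMField.complexConj K π) := rfl
  rw [h4, ← map_mul, hπ.2, map_natCast]

theorem ne_zero (hq : 0 < q) (hπ : IsWeil q π) : π ≠ 0 := by
  rintro rfl
  have h := hπ.2
  rw [zero_mul] at h
  have : (q : K) ≠ 0 := by exact_mod_cast hq.ne'
  exact this h.symm

theorem Lg_cc (hq : 0 < q) (hπ : IsWeil q π) (φ : K →+* QBar) :
    Lg ((cc φ) π) = Lg (q : QBar) - Lg (φ π) := by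
  have h0 := ne_zero hq hπ
  have h1 : φ π ≠ 0 := (map_ne_zero φ).mpr h0
  have h2 : (cc φ) π ≠ 0 := (map_ne_zero (cc φ)).mpr h0
  rw [← mul_cc hπ φ, Lg_mul h1 h2]
  abel

/-- equal multiplicities of conjugate embeddings -/
theorem of_idx (hπ : IsWeil q π) {n : ℕ} (Δ : Finset ((K →+* QBar) × Fin n))
    (h : ∀ φ, (idx Δ φ).card = (idx Δ (cc φ)).card) : WDivisorial q π Δ := by
  classical
  have h0 : ∀ φ, ∃ e : Fin n → Fin n, Set.BijOn e (idx Δ φ) (idx Δ (cc φ)) := by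
    intro φ
    let f := Finset.equivOfCardEq (h φ)
    refine ⟨fun j => if hj : j ∈ idx Δ φ then (f ⟨j, hj⟩).1 else j, ?_, ?_, ?_⟩
    · intro j hj
      have hj' : j ∈ idx Δ φ := hj
      simp only [dif_pos hj']
      exact (f ⟨j, hj'⟩).2
    · intro j hj l hl hjl
      have hj' : j ∈ idx Δ φ := hj
      have hl' : l ∈ idx Δ φ := hl
      simp only [dif_pos hj', dif_pos hl'] at hjl
      have := f.injective (Subtype.ext hjl)
      exact congrArg Subtype.val this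
    · intro l hl
      have hl' : l ∈ idx Δ (cc φ) := hl
      refine ⟨(f.symm ⟨l, hl'⟩).1, (f.symm ⟨l, hl'⟩).2, ?_⟩
      have hj' : (f.symm ⟨l, hl'⟩).1 ∈ idx Δ φ := (f.symm ⟨l, hl'⟩).2
      simp only [dif_pos hj']
      rw [Subtype.coe_eta, Equiv.apply_symm_apply]
  choose e he using h0
  obtain ⟨Φ, hΦ⟩ := Pool.Agent.CMTP.exists_type (K := K)
  have hΦ' : ∀ φ : K →+* QBar, φ ∈ Φ ↔ cc φ ∉ Φ := fun φ => hΦ φ
  refine of_bij Δ (Δ.filter (fun x => x.1 ∈ Φ)) (Δ.filter (fun x => x.1 ∉ Φ)) ?_ ?_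
    (fun x => (cc x.1, e x.1 x.2)) ?_ ?_
  · intro x hx hx'
    rw [Finset.mem_filter] at hx hx'
    exact hx'.2 hx.2
  · intro x
    rw [Finset.mem_filter, Finset.mem_filter]
    tauto
  · refine ⟨?_, ?_, ?_⟩
    · rintro ⟨φ, j⟩ hx
      rw [Finset.mem_coe, Finset.mem_filter] at hx
      rw [Finset.mem_coe, Finset.mem_filter]
      refine ⟨?_, (hΦ' φ).1 hx.2⟩
      exact mem_idx.1 ((he φ).mapsTo (mem_idx.2 hx.1))
    · rintro ⟨φ, j⟩ hx ⟨ψ, l⟩ hy hxy
      rw [Finset.mem_coe, Finset.mem_filter] at hx hy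
      have h1 : cc φ = cc ψ := congrArg Prod.fst hxy
      have h2 : φ = ψ := by rw [← cc_cc φ, h1, cc_cc]
      subst h2
      have h3 : e φ j = e φ l := congrArg Prod.snd hxy
      have h4 := (he φ).injOn (mem_idx.2 hx.1) (mem_idx.2 hy.1) h3
      rw [h4]
    · rintro ⟨ψ, l⟩ hy
      rw [Finset.mem_coe, Finset.mem_filter] at hy
      have h1 : cc ψ ∈ Φ := by
        by_contra h2
        exact hy.2 ((hΦ' ψ).2 h2)
      have h2 : l ∈ idx Δ (cc (cc ψ)) := by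
        rw [cc_cc]
        exact mem_idx.2 hy.1
      obtain ⟨j, hj, hjl⟩ := (he (cc ψ)).surjOn h2
      refine ⟨(cc ψ, j), ?_, ?_⟩
      · rw [Finset.mem_coe, Finset.mem_filter]
        exact ⟨mem_idx.1 hj, h1⟩
      · show (cc (cc ψ), e (cc ψ) j) = (ψ, l)
        rw [cc_cc, hjl]
  · intro x hx
    refine ⟨1, one_pos, ?_⟩
    show (x.1 π * (cc x.1) π) ^ 1 = _
    rw [mul_cc hπ]

/-- the sum of the classes over a Tate weight -/
theorem sum_Lg (hq : 0 < q) (hπ : IsWeil q π) {n i : ℕ} (Δ : Finset ((K →+* QBar) × Fin n))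
    (hΔ : WTateWeight q π i Δ) (τ : QBar ≃+* QBar) :
    ∑ x ∈ Δ, Lg ((toPerm K τ x.1) π) = (i : ℚ) • Lg (q : QBar) := by
  have hq' : (q : QBar) ≠ 0 := by exact_mod_cast hq.ne'
  have h0 := ne_zero hq hπ
  have hne : ∀ φ : K →+* QBar, φ π ≠ 0 := fun φ => (map_ne_zero φ).mpr h0
  obtain ⟨_, N, hN, h⟩ := hΔ
  have h1 := congrArg τ h
  rw [map_pow, map_pow, map_prod, map_natCast] at h1
  have h2 : ∏ x ∈ Δ, τ (x.1 π) = ∏ x ∈ Δ, (toPerm K τ x.1) π := rfl
  rw [h2] at h1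
  have h3 := congrArg Lg h1
  rw [Lg_pow (Finset.prod_ne_zero_iff.mpr fun x _ => hne _), Lg_pow hq',
    Lg_prod _ _ (fun x _ => hne _), mul_comm, mul_smul, ← Nat.cast_smul_eq_nsmul ℚ,
    ← Nat.cast_smul_eq_nsmul ℚ N, ← Nat.cast_smul_eq_nsmul ℚ i] at h3
  have hN' : (N : ℚ) ≠ 0 := by exact_mod_cast hN.ne'
  exact smul_right_injective _ hN' h3

/-- a sum over a set of eigenlines as a sum over the embeddings -/
theorem sum_idx {n : ℕ} (Δ : Finset ((K →+* QBar) × Fin n)) (F : (K →+* QBar) → VQ) :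
    ∑ φ, ((idx Δ φ).card : ℚ) • F φ = ∑ x ∈ Δ, F x.1 := by
  classical
  rw [← Finset.sum_fiberwise Δ (fun x => x.1) (fun x => F x.1)]
  refine Finset.sum_congr rfl fun φ _ => ?_
  have h1 : ∑ x ∈ Δ.filter (fun x => x.1 = φ), F x.1 =
      ∑ x ∈ Δ.filter (fun x => x.1 = φ), F φ := by
    refine Finset.sum_congr rfl fun x hx => ?_
    rw [(Finset.mem_filter.1 hx).2]
  rw [h1, Finset.sum_const, Nat.cast_smul_eq_nsmul ℚ]
  congr 1
  refine Finset.card_bij (fun j _ => (φ, j)) ?_ ?_ ?_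
  · intro j hj
    rw [Finset.mem_filter]
    exact ⟨mem_idx.1 hj, rfl⟩
  · intro j _ l _ h
    exact congrArg Prod.snd h
  · rintro ⟨ψ, j⟩ hx
    rw [Finset.mem_filter] at hx
    have h2 : ψ = φ := hx.2
    subst h2
    exact ⟨j, mem_idx.2 hx.1, rfl⟩

/-- the total number of eigenlines -/
theorem card_total {n i : ℕ} (Δ : Finset ((K →+* QBar) × Fin n)) (h : Δ.card = 2 * i) :
    ∑ φ : K →+* QBar, ((idx Δ φ).card : ℚ) = 2 * i := by
  classical
  have h1 := Pool.Agent.CMTP.card_idx Δ Finset.univ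
  have h2 : {p : (K →+* QBar) × Fin n | p ∈ Δ ∧ p.1 ∈ (Finset.univ : Finset (K →+* QBar))}.ncard
      = Δ.card := by
    rw [← Set.ncard_coe_finset]
    congr 1
    ext p
    simp
  rw [h2, h] at h1
  have h3 : ((∑ φ, (idx Δ φ).card : ℕ) : ℚ) = ((2 * i : ℕ) : ℚ) := by rw [h1]
  push_cast at h3
  exact h3

/-- the antisymmetric relation of a Tate weight -/
theorem rel (hq : 0 < q) (hπ : IsWeil q π) {n i : ℕ} (Δ : Finset ((K →+* QBar) × Fin n))
    (hΔ : WTateWeight q π i Δ) (s : Equiv.Perm (K →+* QBar)) (hs : s ∈ HG K) :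
    ∑ φ, (((idx Δ φ).card : ℤ) - ((idx Δ (cc φ)).card : ℤ)) • Lg ((s φ) π) = 0 := by
  obtain ⟨τ, rfl⟩ := hs
  have h1 := sum_Lg hq hπ Δ hΔ τ
  rw [← sum_idx Δ (fun φ => Lg ((toPerm K τ φ) π))] at h1
  have h2 : ∑ φ : K →+* QBar, ((idx Δ (cc φ)).card : ℚ) • Lg ((toPerm K τ φ) π) =
      ∑ φ : K →+* QBar, ((idx Δ φ).card : ℚ) • Lg ((toPerm K τ (cc φ)) π) := by
    refine Finset.sum_bij' (fun φ _ => cc φ) (fun φ _ => cc φ) ?_ ?_ ?_ ?_ ?_
    · intro φ _; exact Finset.mem_univ _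
    · intro φ _; exact Finset.mem_univ _
    · intro φ _; exact cc_cc φ
    · intro φ _; exact cc_cc φ
    · intro φ _
      rw [cc_cc]
  have h3 : ∀ φ : K →+* QBar, Lg ((toPerm K τ (cc φ)) π) =
      Lg (q : QBar) - Lg ((toPerm K τ φ) π) := by
    intro φ
    have h4 : toPerm K τ (cc φ) = cc (toPerm K τ φ) := rfl
    rw [h4, Lg_cc hq hπ]
  have h5 : ∑ φ : K →+* QBar, ((idx Δ (cc φ)).card : ℚ) • Lg ((toPerm K τ φ) π) =
      (i : ℚ) • Lg (q : QBar) := by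
    rw [h2]
    simp only [h3, smul_sub]
    rw [Finset.sum_sub_distrib, h1, ← Finset.sum_smul, card_total Δ hΔ.1, two_mul, add_smul]
    abel
  have h6 : ∀ φ : K →+* QBar,
      (((idx Δ φ).card : ℤ) - ((idx Δ (cc φ)).card : ℤ)) • Lg ((toPerm K τ φ) π) =
      ((idx Δ φ).card : ℚ) • Lg ((toPerm K τ φ) π) -
        ((idx Δ (cc φ)).card : ℚ) • Lg ((toPerm K τ φ) π) := by
    intro φ
    rw [← Int.cast_smul_eq_zsmul ℚ, ← sub_smul]
    push_cast
    rfl
  rw [Finset.sum_congr rfl fun φ _ => h6 φ, Finset.sum_sub_distrib, h1, h5, sub_self]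

/-- case 1: the eigenvalue and its conjugate agree up to roots of unity -/
theorem case1 (hq : 0 < q) (hπ : IsWeil q π)
    (h : ∀ φ : K →+* QBar, Lg (φ π) = Lg ((cc φ) π)) : WTateByDivisors q π := by
  classical
  intro n i Δ hΔ
  obtain ⟨A, hA, hAc⟩ := Finset.exists_subset_card_eq (s := Δ) (n := i)
    (by rw [hΔ.1]; omega)
  have h2 : ∀ φ : K →+* QBar, (2 : ℚ) • Lg (φ π) = Lg (q : QBar) := by
    intro φ
    have h3 := h φ
    rw [Lg_cc hq hπ] at h3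
    rw [two_smul]
    nth_rewrite 1 [h3]
    abel
  refine of_card hq (ne_zero hq hπ) Δ A (Δ \ A) ?_ ?_ ?_ ?_
  · intro x hx hx'
    exact (Finset.mem_sdiff.1 hx').2 hx
  · intro x
    rw [Finset.mem_sdiff]
    constructor
    · intro hx
      by_cases hxA : x ∈ A
      · exact Or.inl hxA
      · exact Or.inr ⟨hx, hxA⟩
    · rintro (hx | hx)
      · exact hA hx
      · exact hx.1
  · rw [Finset.card_sdiff_of_subset hA, hAc, hΔ.1]
    omega
  · intro x _ y _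
    have e1 := h2 x.1
    have e2 := h2 y.1
    have e3 : Lg (x.1 π) = Lg (y.1 π) :=
      smul_right_injective _ (two_ne_zero : (2 : ℚ) ≠ 0) (e1.trans e2.symm)
    rw [e3, ← e2, two_smul]

/-- case 2: the classes are constant on an invariant half system -/
theorem case2 (hq : 0 < q) (hπ : IsWeil q π) (C : Finset (K →+* QBar))
    (hC : ∀ φ, φ ∈ C ↔ cc φ ∉ C) (h : ∀ φ ∈ C, ∀ ψ ∈ C, Lg (φ π) = Lg (ψ π)) :
    WTateByDivisors q π := by
  classical
  by_cases hc : ∀ φ : K →+* QBar, Lg (φ π) = Lg ((cc φ) π)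
  · exact case1 hq hπ hc
  intro n i Δ hΔ
  -- the value on `C`
  obtain ⟨φ₀, hφ₀⟩ := not_forall.1 hc
  have hC1 : ∃ φ₁ ∈ C, Lg (φ₁ π) ≠ Lg ((cc φ₁) π) := by
    by_cases h1 : φ₀ ∈ C
    · exact ⟨φ₀, h1, hφ₀⟩
    · refine ⟨cc φ₀, ?_, ?_⟩
      · by_contra h2
        exact h1 ((hC φ₀).2 h2)
      · rw [cc_cc]
        exact fun h => hφ₀ h.symm
  obtain ⟨φ₁, h1, h2⟩ := hC1
  set l := Lg (φ₁ π) with hl
  have hin : ∀ φ ∈ C, Lg (φ π) = l := fun φ hφ => h φ hφ φ₁ h1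
  have hout : ∀ φ, φ ∉ C → Lg (φ π) = Lg (q : QBar) - l := by
    intro φ hφ
    have h3 : cc φ ∈ C := by
      by_contra h4
      exact hφ ((hC φ).2 h4)
    have h4 := Lg_cc hq hπ (cc φ)
    rw [cc_cc, hin _ h3] at h4
    exact h4
  rw [Lg_cc hq hπ] at h2
  let A := Δ.filter (fun x => x.1 ∈ C)
  let A' := Δ.filter (fun x => x.1 ∉ C)
  have hsum : A.card + A'.card = 2 * i := by
    rw [← hΔ.1]
    exact Finset.card_filter_add_card_filter_not _
  have hL := sum_Lg hq hπ Δ hΔ 1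
  have hone : ∀ φ : K →+* QBar, toPerm K 1 φ = φ := fun φ => by rw [map_one]; rfl
  simp only [hone] at hL
  rw [← Finset.sum_filter_add_sum_filter_not Δ (fun x => x.1 ∈ C)] at hL
  have hs1 : ∑ x ∈ Δ.filter (fun x => x.1 ∈ C), Lg (x.1 π) = (A.card : ℚ) • l := by
    rw [Finset.sum_congr rfl fun x hx => hin x.1 (Finset.mem_filter.1 hx).2, Finset.sum_const,
      Nat.cast_smul_eq_nsmul ℚ]
  have hs2 : ∑ x ∈ Δ.filter (fun x => x.1 ∉ C), Lg (x.1 π) =
      (A'.card : ℚ) • (Lg (q : QBar) - l) := by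
    rw [Finset.sum_congr rfl fun x hx => hout x.1 (Finset.mem_filter.1 hx).2, Finset.sum_const,
      Nat.cast_smul_eq_nsmul ℚ]
  rw [hs1, hs2] at hL
  have hcard : A.card = A'.card := by
    have e1 : ((A.card : ℚ) - A'.card) • (l - (Lg (q : QBar) - l)) = 0 := by
      have e2 : (A.card : ℚ) + A'.card = 2 * i := by exact_mod_cast hsum
      have e3 : (i : ℚ) = ((A.card : ℚ) + A'.card) / 2 := by rw [e2]; ring
      rw [e3] at hL
      have e4 : ((A.card : ℚ) - A'.card) • (l - (Lg (q : QBar) - l)) =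
          (2 : ℚ) • ((A.card : ℚ) • l + (A'.card : ℚ) • (Lg (q : QBar) - l) -
            (((A.card : ℚ) + A'.card) / 2) • Lg (q : QBar)) := by
        module
      rw [e4, hL, sub_self, smul_zero]
    rcases smul_eq_zero.1 e1 with e2 | e2
    · exact_mod_cast sub_eq_zero.1 e2
    · exact absurd (sub_eq_zero.1 e2) h2
  refine of_card hq (ne_zero hq hπ) Δ A A' ?_ ?_ hcard ?_
  · intro x hx hx'
    exact (Finset.mem_filter.1 hx').2 (Finset.mem_filter.1 hx).2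
  · intro x
    simp only [A, A', Finset.mem_filter]
    tauto
  · intro x hx y hy
    rw [hin x.1 (Finset.mem_filter.1 hx).2, hout y.1 (Finset.mem_filter.1 hy).2]
    abel

/-- a sum over the complement of a half system -/
theorem sum_compl (C : Finset (K →+* QBar)) (hC : ∀ φ, φ ∈ C ↔ cc φ ∉ C)
    [DecidablePred fun φ : K →+* QBar => φ ∉ C]
    {M : Type} [AddCommMonoid M] (F : (K →+* QBar) → M) :
    ∑ φ ∈ univ.filter (fun φ : K →+* QBar => φ ∉ C), F φ = ∑ φ ∈ C, F (cc φ) := by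
  refine Finset.sum_bij' (fun φ _ => cc φ) (fun φ _ => cc φ) ?_ ?_ ?_ ?_ ?_
  · intro φ hφ
    by_contra h3
    exact (Finset.mem_filter.1 hφ).2 ((hC φ).2 h3)
  · intro φ hφ
    exact Finset.mem_filter.2 ⟨Finset.mem_univ _, (hC φ).1 hφ⟩
  · intro φ _
    exact cc_cc φ
  · intro φ _
    exact cc_cc φ
  · intro φ _
    rw [cc_cc]

/-- a half system contains half of the embeddings -/
theorem card_half (C : Finset (K →+* QBar)) (hC : ∀ φ, φ ∈ C ↔ cc φ ∉ C) :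
    2 * C.card = Module.finrank ℚ K := by
  classical
  have h1 : Fintype.card (K →+* QBar) = Module.finrank ℚ K := Embeddings.card K QBar
  have h2 := sum_compl C hC (fun _ => (1 : ℕ))
  rw [Finset.sum_const, Finset.sum_const, smul_eq_mul, smul_eq_mul, mul_one, mul_one] at h2
  have h3 := Finset.card_filter_add_card_filter_not (s := (univ : Finset (K →+* QBar)))
    (fun φ => φ ∈ C)
  rw [h2, Finset.filter_mem_eq_inter, Finset.univ_inter, Finset.card_univ, h1] at h3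
  omega

open Classical in
/-- the product over a half system -/
theorem prod_half (hq : 0 < q) (hπ : IsWeil q π) (S : Finset (K →+* QBar))
    (h : (4 : ℚ) • ∑ φ ∈ S, Lg (φ π) = (Module.finrank ℚ K : ℚ) • Lg (q : QBar)) :
    ∃ N : ℕ, 0 < N ∧ (∏ φ ∈ S, φ π) ^ (4 * N) = (q : QBar) ^ (Module.finrank ℚ K * N) := by
  have hq' : (q : QBar) ≠ 0 := by exact_mod_cast hq.ne'
  have h0 := ne_zero hq hπ
  have hne : ∀ φ : K →+* QBar, φ π ≠ 0 := fun φ => (map_ne_zero φ).mpr h0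
  have hp : ∏ φ ∈ S, φ π ≠ 0 := Finset.prod_ne_zero_iff.mpr fun x _ => hne _
  rw [← Lg_prod _ _ (fun x _ => hne _), show (4 : ℚ) = ((4 : ℕ) : ℚ) by norm_num,
    Nat.cast_smul_eq_nsmul ℚ, Nat.cast_smul_eq_nsmul ℚ, ← Lg_pow hp, ← Lg_pow hq',
    Lg_eq (pow_ne_zero _ hp) (pow_ne_zero _ hq')] at h
  obtain ⟨N, hN, h1⟩ := h
  refine ⟨N, hN, ?_⟩
  rw [div_pow, div_eq_one_iff_eq (pow_ne_zero N (pow_ne_zero _ hq')), ← pow_mul, ← pow_mul] at h1
  exact h1

/-- the members of the complement -/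
theorem not_mem_iff (C : Finset (K →+* QBar)) {δ : K} {r : ℚ} (hr : 0 < r)
    (hδ : δ ^ 2 = -(r : K)) {s₀ : QBar} (hs₀ : s₀ ^ 2 = -(r : QBar))
    (hCs : ∀ φ, φ ∈ C ↔ φ δ = s₀) (φ : K →+* QBar) : φ ∉ C ↔ φ δ = -s₀ := by
  have hs₀0 : s₀ ≠ 0 := by
    rintro rfl
    have h6 : (r : QBar) = 0 := by
      have h7 := hs₀
      rw [zero_pow two_ne_zero] at h7
      exact (neg_eq_zero.1 h7.symm)
    have h8 : r = 0 := by exact_mod_cast h6
    exact hr.ne' h8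
  have h6 : φ δ = s₀ ∨ φ δ = -s₀ := by
    have : (φ δ) ^ 2 = s₀ ^ 2 := by
      rw [← map_pow, hδ, hs₀, map_neg, map_ratCast]
    exact sq_eq_sq_iff_eq_or_eq_neg.1 this
  rw [hCs]
  constructor
  · intro h7
    exact h6.resolve_left h7
  · intro h7 h8
    rw [h7] at h8
    exact hs₀0 (self_eq_neg.1 h8.symm)

open Classical in
/-- case 3: the relation is plus or minus a constant on an invariant half system -/
theorem case3core (hq : 0 < q) (hπ : IsWeil q π) (C : Finset (K →+* QBar))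
    (hC : ∀ φ, φ ∈ C ↔ cc φ ∉ C) {δ : K} {r : ℚ} (hr : 0 < r)
    (hδ : δ ^ 2 = -(r : K)) {s₀ : QBar} (hs₀ : s₀ ^ 2 = -(r : QBar))
    (hCs : ∀ φ, φ ∈ C ↔ φ δ = s₀)
    (e : (K →+* QBar) → ℤ) (he : ∑ φ, e φ • Lg (φ π) = 0) (m : ℤ) (hm : m ≠ 0)
    (hem : ∀ φ, (φ ∈ C → e φ = m) ∧ (φ ∉ C → e φ = -m)) :
    ∀ s : QBar, s ^ 2 = -(r : QBar) →
      ∃ N : ℕ, 0 < N ∧ (∏ φ ∈ univ.filter (fun φ : K →+* QBar => φ δ = s), φ π) ^ (4 * N) =
        (q : QBar) ^ (Module.finrank ℚ K * N) := by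
  have hcard := card_half C hC
  have hcard' : (2 : ℚ) * C.card = Module.finrank ℚ K := by exact_mod_cast hcard
  -- the relation
  have h1 : ∑ φ ∈ C, Lg ((cc φ) π) =
      (C.card : ℚ) • Lg (q : QBar) - ∑ φ ∈ C, Lg (φ π) := by
    rw [Finset.sum_congr rfl fun φ _ => Lg_cc hq hπ φ, Finset.sum_sub_distrib, Finset.sum_const,
      Nat.cast_smul_eq_nsmul ℚ]
  have h2 : (m : ℚ) • (∑ φ ∈ C, Lg (φ π) - ∑ φ ∈ C, Lg ((cc φ) π)) = 0 := by
    rw [← sum_compl C hC (fun φ => Lg (φ π)), smul_sub, Finset.smul_sum, Finset.smul_sum]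
    rw [← Finset.sum_filter_add_sum_filter_not univ (fun φ => φ ∈ C),
      Finset.filter_mem_eq_inter, Finset.univ_inter] at he
    rw [Finset.sum_congr rfl fun φ hφ => by rw [(hem φ).1 hφ],
      Finset.sum_congr (s₁ := univ.filter (fun φ => φ ∉ C)) rfl
        fun φ hφ => by rw [(hem φ).2 (Finset.mem_filter.1 hφ).2]] at he
    simp only [neg_smul, Finset.sum_neg_distrib, ← sub_eq_add_neg] at he
    simp only [Int.cast_smul_eq_zsmul ℚ]
    exact he
  have h3 : ∑ φ ∈ C, Lg (φ π) - ∑ φ ∈ C, Lg ((cc φ) π) = 0 := by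
    rcases smul_eq_zero.1 h2 with h | h
    · exact absurd (by exact_mod_cast h) hm
    · exact h
  rw [h1] at h3
  have h4 : (4 : ℚ) • ∑ φ ∈ C, Lg (φ π) = (Module.finrank ℚ K : ℚ) • Lg (q : QBar) := by
    rw [← hcard']
    have e1 : (4 : ℚ) • ∑ φ ∈ C, Lg (φ π) = (2 : ℚ) • (∑ φ ∈ C, Lg (φ π) -
        ((C.card : ℚ) • Lg (q : QBar) - ∑ φ ∈ C, Lg (φ π))) +
        (2 * (C.card : ℚ)) • Lg (q : QBar) := by module
    rw [e1, h3, smul_zero, zero_add]
  have h5 : (4 : ℚ) • ∑ φ ∈ univ.filter (fun φ => φ ∉ C), Lg (φ π) =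
      (Module.finrank ℚ K : ℚ) • Lg (q : QBar) := by
    rw [sum_compl C hC (fun φ => Lg (φ π)), h1, smul_sub, h4, ← hcard']
    module
  intro s hs
  have hss : s = s₀ ∨ s = -s₀ := by
    have : s ^ 2 = s₀ ^ 2 := by rw [hs, hs₀]
    exact sq_eq_sq_iff_eq_or_eq_neg.1 this
  rcases hss with rfl | rfl
  · have e1 : (univ.filter (fun φ : K →+* QBar => φ δ = s)) = C := by
      ext φ
      rw [Finset.mem_filter, hCs]
      simp
    rw [e1]
    exact prod_half hq hπ C h4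
  · have e1 : (univ.filter (fun φ : K →+* QBar => φ δ = -s₀)) =
        univ.filter (fun φ => φ ∉ C) := by
      ext φ
      rw [Finset.mem_filter, Finset.mem_filter, not_mem_iff C hr hδ hs₀ hCs]
    rw [e1]
    exact prod_half hq hπ _ h5

/-- case 3: the relation is plus or minus a constant on an invariant half system -/
theorem case3 (hQ : T_QUAD) (hq : 0 < q) (hπ : IsWeil q π) (C : Finset (K →+* QBar))
    (hC : ∀ φ, φ ∈ C ↔ cc φ ∉ C)
    (hG : ∀ s ∈ HG K, (∀ φ, s φ ∈ C ↔ φ ∈ C) ∨ ∀ φ, s φ ∈ C ↔ φ ∉ C)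
    (e : (K →+* QBar) → ℤ) (he : ∑ φ, e φ • Lg (φ π) = 0) (m : ℤ) (hm : m ≠ 0)
    (hem : ∀ φ, (φ ∈ C → e φ = m) ∧ (φ ∉ C → e φ = -m)) : WBalanced q π := by
  obtain ⟨δ, r, hr, hδ, s₀, hs₀, hCs⟩ := hQ K C hC hG
  exact ⟨δ, r, hr, hδ, case3core hq hπ C hC hr hδ hs₀ hCs e he m hm hem⟩

end main

end WC_

open WC_ in
theorem tWC : T_ABS → T_EMB → T_QUAD → T_WC := by
  classical
  intro hA hE hQ g b hb hreal K _ _ _ hfin hβ q π hq hπ
  obtain ⟨hirr, p, hp, hp3, hgp, _, hcyc⟩ := hb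
  obtain ⟨τ, ρ, hρ, hρcc, hτρ, hτ⟩ := hE g p hp hp3 hgp b hirr hreal hcyc K hfin hβ
  have h0 := ne_zero hq hπ
  have hne : ∀ φ : K →+* QBar, φ π ≠ 0 := fun φ => (map_ne_zero φ).mpr h0
  -- a Tate weight with different multiplicities
  by_cases hex : ∃ (n i : ℕ) (Δ : Finset ((K →+* QBar) × Fin n)), WTateWeight q π i Δ ∧
      ∃ φ, (idx Δ φ).card ≠ (idx Δ (cc φ)).card
  swap
  · refine Or.inl fun n i Δ hΔ => of_idx hπ Δ fun φ => ?_
    by_contra h
    exact hex ⟨n, i, Δ, hΔ, φ, h⟩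
  obtain ⟨n, i, Δ, hΔ, φ₀, hφ₀⟩ := hex
  let e : (K →+* QBar) → ℤ := fun φ => ((idx Δ φ).card : ℤ) - ((idx Δ (cc φ)).card : ℤ)
  have hone : ∀ φ : K →+* QBar, (1 : Equiv.Perm (K →+* QBar)) φ = φ := fun φ => rfl
  have hmain := hA (K →+* QBar) cc (HG K) VQ (fun φ => Lg (φ π)) (Lg (q : QBar)) p g
    (toPerm K τ) ρ e ?_ hp hp3 hgp cc_cc cc_ne ?_ (transitive K) ⟨τ, rfl⟩ hρ hρcc hτρ hτ
    (Lg_cc hq hπ) ?_ ?_ ?_ ?_
  · rcases hmain with h | ⟨C, hC, hG, h | ⟨m, hm, hem⟩⟩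
    · exact Or.inl (case1 hq hπ h)
    · exact Or.inl (case2 hq hπ C hC h)
    · refine Or.inr (case3 hQ hq hπ C hC hG e ?_ m hm ?_)
      · exact rel hq hπ Δ hΔ 1 (one_mem _)
      · intro φ
        refine ⟨fun h => ?_, fun h => ?_⟩
        · rw [hem φ, if_pos h]
        · rw [hem φ, if_neg h]
  · rw [Embeddings.card K QBar, hfin]
  · intro s hs φ
    exact (hg_cc s hs φ).symm
  · rintro _ ⟨σ, rfl⟩ φ ψ h
    exact Lg_map σ (hne φ) (hne ψ) h
  · intro φ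
    show ((idx Δ (cc φ)).card : ℤ) - ((idx Δ (cc (cc φ))).card : ℤ) = -_
    rw [cc_cc]
    ring
  · intro s hs
    exact rel hq hπ Δ hΔ s hs
  · refine ⟨φ₀, ?_⟩
    intro h
    apply hφ₀
    have h' : ((idx Δ φ₀).card : ℤ) - ((idx Δ (cc φ₀)).card : ℤ) = 0 := h
    omega

end Pool.Agent.RFC
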