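import Mathlib
import Pool.Agent.RFC.Targets2

set_option autoImplicit false

/-!
# ABS2: the classification of the module of relations
-/

namespace Pool.Agent.RFC

open Finset
open scoped BigOperators

theorem tABS2 : T_ABS → T_ABS2 := by
  intro hABS X _ _ ι G W _ _ L c p g τ ρ hcard hp hp3 hg hιι hι hcomm htr hτ hinj hkl hτρ hfix hL
    hinv
  by_cases hA : ∀ e : X → ℤ, (∀ x, e (ι x) = -e x) → (∀ s ∈ G, ∑ x, e x • L (s x) = 0) →
      ∀ x, e x = 0
  · exact Or.inl hA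
  right
  by_cases hB : ∀ x, L x = L (ι x)
  · exact Or.inl hB
  right
  by_cases hC : ∃ C : Finset X, (∀ x, x ∈ C ↔ ι x ∉ C) ∧
      (∀ s ∈ G, (∀ x, s x ∈ C ↔ x ∈ C) ∨ ∀ x, s x ∈ C ↔ x ∉ C) ∧
      (∀ x ∈ C, ∀ y ∈ C, L x = L y)
  · obtain ⟨C, h1, h2, h3⟩ := hC
    exact ⟨C, h1, h2, Or.inl h3⟩
  have key : ∀ e : X → ℤ, (∀ x, e (ι x) = -e x) → (∀ s ∈ G, ∑ x, e x • L (s x) = 0) →
      (∃ x, e x ≠ 0) → ∃ C : Finset X, (∀ x, x ∈ C ↔ ι x ∉ C) ∧
      (∀ s ∈ G, (∀ x, s x ∈ C ↔ x ∈ C) ∨ ∀ x, s x ∈ C ↔ x ∉ C) ∧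
      ∃ m : ℤ, m ≠ 0 ∧ ∀ x, e x = if x ∈ C then m else -m := by
    intro e h1 h2 h3
    rcases hABS X ι G W L c p g τ ρ e hcard hp hp3 hg hιι hι hcomm htr hτ hinj hkl hτρ hfix hL
      hinv h1 h2 h3 with h | ⟨C, h4, h5, h6 | h6⟩
    · exact absurd h hB
    · exact absurd ⟨C, h4, h5, h6⟩ hC
    · exact ⟨C, h4, h5, h6⟩
  push Not at hA
  obtain ⟨e₀, h1, h2, x₀, h3⟩ := hA
  obtain ⟨C, hC1, hC2, m₀, hm₀, hC3⟩ := key e₀ h1 h2 ⟨x₀, h3⟩
  refine ⟨C, hC1, hC2, Or.inr ⟨fun s hs => ?_, fun e he hr => ?_⟩⟩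
  · have h4 := h2 s hs
    have h5 : ∑ x, e₀ x • L (s x) = m₀ • ∑ x, (if x ∈ C then (1 : ℤ) else -1) • L (s x) := by
      rw [smul_sum]
      refine sum_congr rfl fun x _ => ?_
      rw [smul_smul, hC3 x]
      congr 1
      split_ifs <;> ring
    rw [h5, ← Int.cast_smul_eq_zsmul ℚ, smul_eq_zero] at h4
    rcases h4 with h4 | h4
    · exact absurd (by exact_mod_cast h4) hm₀
    · exact h4
  · by_cases h0 : ∃ x, e x ≠ 0
    · obtain ⟨C', -, -, m', hm', hC3'⟩ := key e he hr h0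
      have ha : ∀ x, m' * e₀ (ι x) + m₀ * e (ι x) = -(m' * e₀ x + m₀ * e x) := by
        intro x
        rw [h1, he]
        ring
      have hb : ∀ s ∈ G, ∑ x, (m' * e₀ x + m₀ * e x) • L (s x) = 0 := by
        intro s hs
        have h4 : ∑ x, (m' * e₀ x + m₀ * e x) • L (s x) =
            m' • ∑ x, e₀ x • L (s x) + m₀ • ∑ x, e x • L (s x) := by
          rw [smul_sum, smul_sum, ← sum_add_distrib]
          refine sum_congr rfl fun x _ => ?_
          rw [add_smul, mul_smul, mul_smul]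
        rw [h4, h2 s hs, hr s hs, smul_zero, smul_zero, add_zero]
      by_cases h5 : ∃ x, m' * e₀ x + m₀ * e x ≠ 0
      · obtain ⟨C'', -, -, m'', hm'', hC3''⟩ := key (fun x => m' * e₀ x + m₀ * e x) ha hb h5
        refine ⟨m', fun x => ?_⟩
        have h6 : m' * e₀ x + m₀ * e x ≠ 0 := by
          have := hC3'' x
          rw [this]
          split_ifs
          · exact hm''
          · exact neg_ne_zero.2 hm''
        rw [hC3 x, hC3' x] at h6
        rw [hC3' x]
        by_cases a1 : x ∈ C <;> by_cases a2 : x ∈ C'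
        · rw [if_pos a1, if_pos a2]
        · rw [if_pos a1, if_neg a2] at h6
          exact absurd (by ring) h6
        · rw [if_neg a1, if_pos a2] at h6
          exact absurd (by ring) h6
        · rw [if_neg a1, if_neg a2]
      · push Not at h5
        refine ⟨-m', fun x => ?_⟩
        have h6 := h5 x
        rw [hC3 x, hC3' x] at h6
        rw [hC3' x]
        have hne : m' * m₀ ≠ 0 := mul_ne_zero hm' hm₀
        by_cases a1 : x ∈ C <;> by_cases a2 : x ∈ C'
        · rw [if_pos a1, if_pos a2] at h6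
          exact absurd (by linarith) hne
        · rw [if_pos a1, if_neg a2]
        · rw [if_neg a1, if_pos a2, neg_neg]
        · rw [if_neg a1, if_neg a2] at h6
          exact absurd (by linarith) hne
    · push Not at h0
      exact ⟨0, fun x => by rw [h0 x]; simp⟩

end Pool.Agent.RFC
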