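import Mathlib
import Pool.Agent.RFC.Targets
import Pool.Agent.AWP.ROIR

set_option autoImplicit false
set_option linter.unusedSectionVars false

/-!
# EMB: the long cycle on the embeddings of a CM field
-/

namespace Pool.Agent.RFC

open Polynomial Finset NumberField
open Pool.Agent.CMT (QBar IsCMType TateByDivisors cc cc_cc)
open Pool.Agent.CMTP (HG toPerm toPerm_apply cc_apply cc_ne hg_cc)
open Pool.Agent.AWP (poly IsRealWeil)
open scoped IntermediateField

namespace EMB_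

variable {g : ℕ} {b : Fin g → ℤ} {K : Type} [Field K] [NumberField K]

theorem minpoly_eq (hi : Irreducible (poly b)) {β : K} (hβ : aeval β (poly b) = 0) :
    (poly b).map (algebraMap ℤ ℚ) = minpoly ℚ β := by
  apply minpoly.eq_of_irreducible_of_monic
  · exact ((Pool.Agent.AWP.ROIR_.poly_monic b).irreducible_iff_irreducible_map_fraction_map
      (K := ℚ)).1 hi
  · rwa [aeval_map_algebraMap]
  · exact (Pool.Agent.AWP.ROIR_.poly_monic b).map _

theorem finrank_simple (hi : Irreducible (poly b)) {β : K} (hβ : aeval β (poly b) = 0) :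
    Module.finrank ℚ ℚ⟮β⟯ = g := by
  rw [IntermediateField.adjoin.finrank (Algebra.IsIntegral.isIntegral β), ← minpoly_eq hi hβ,
    (Pool.Agent.AWP.ROIR_.poly_monic b).natDegree_map, Pool.Agent.AWP.ROIR_.poly_natDegree]

theorem finrank_top (hi : Irreducible (poly b)) (hg : Module.finrank ℚ K = 2 * g) (hg0 : 0 < g)
    {β : K} (hβ : aeval β (poly b) = 0) : Module.finrank ℚ⟮β⟯ K = 2 := by
  have h1 := Module.finrank_mul_finrank ℚ ℚ⟮β⟯ K
  rw [finrank_simple hi hβ, hg, mul_comm 2 g] at h1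
  exact Nat.eq_of_mul_eq_mul_left hg0 h1

/-- the values of the embeddings at a root -/
theorem root_of_emb {A : Type} [CommRing A] (φ : K →+* A) {β : K} (hβ : aeval β (poly b) = 0) :
    aeval (φ β) (poly b) = 0 := by
  have h1 := Polynomial.hom_eval₂ (poly b) (algebraMap ℤ K) φ β
  have h2 : φ.comp (algebraMap ℤ K) = algebraMap ℤ A := Subsingleton.elim _ _
  rw [h2, ← aeval_def, ← aeval_def, hβ, map_zero] at h1
  exact h1.symm

/-- each root is the value of an embedding -/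
theorem emb_of_root (hi : Irreducible (poly b)) {β : K} (hβ : aeval β (poly b) = 0) {x : QBar}
    (hx : aeval x (poly b) = 0) : ∃ φ : K →+* QBar, φ β = x := by
  have h1 : x ∈ (minpoly ℚ β).rootSet QBar := by
    rw [mem_rootSet]
    refine ⟨minpoly.ne_zero (Algebra.IsIntegral.isIntegral β), ?_⟩
    rw [← minpoly_eq hi hβ, aeval_map_algebraMap]
    exact hx
  rw [← NumberField.Embeddings.range_eval_eq_rootSet_minpoly K QBar β] at h1
  obtain ⟨φ, hφ⟩ := h1
  exact ⟨φ, hφ⟩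

/-- embeddings which agree at `β` agree on `ℚ(β)` -/
theorem agree {β : K} {φ ψ : K →+* QBar} (h : φ β = ψ β) : ∀ x ∈ ℚ⟮β⟯, φ x = ψ x := by
  intro x hx
  induction hx using IntermediateField.adjoin_induction with
  | mem x hx =>
    rw [Set.mem_singleton_iff] at hx
    rw [hx, h]
  | algebraMap x => rw [eq_ratCast, map_ratCast, map_ratCast]
  | add x y _ _ h1 h2 => rw [map_add, map_add, h1, h2]
  | inv x _ h1 => rw [map_inv₀, map_inv₀, h1]
  | mul x y _ _ h1 h2 => rw [map_mul, map_mul, h1, h2]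

variable [IsCMField K]

/-- totally real elements are fixed by the complex conjugation -/
theorem conj_fix (hr : ∀ z : ℂ, aeval z (poly b) = 0 → ∃ y : ℝ, z = y) {β : K}
    (hβ : aeval β (poly b) = 0) : IsCMField.complexConj K β = β := by
  let φ : K →+* ℂ := Classical.choice (inferInstance : Nonempty _)
  apply φ.injective
  rw [IsCMField.complexEmbedding_complexConj]
  obtain ⟨y, hy⟩ := hr (φ β) (root_of_emb φ hβ)
  rw [hy, Complex.conj_ofReal]

theorem cc_beta (hr : ∀ z : ℂ, aeval z (poly b) = 0 → ∃ y : ℝ, z = y) {β : K}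
    (hβ : aeval β (poly b) = 0) (φ : K →+* QBar) : cc φ β = φ β := by
  rw [cc_apply, conj_fix hr hβ]

/-- the fibres of the evaluation at `β` are the pairs of conjugate embeddings -/
theorem fibre (hi : Irreducible (poly b)) (hr : ∀ z : ℂ, aeval z (poly b) = 0 → ∃ y : ℝ, z = y)
    (hg : Module.finrank ℚ K = 2 * g) (hg0 : 0 < g) {β : K} (hβ : aeval β (poly b) = 0)
    {φ ψ : K →+* QBar} (h : ψ β = φ β) : ψ = φ ∨ ψ = cc φ := by
  classical
  by_contra hcon
  rw [not_or] at hcon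
  let alg : Algebra ℚ⟮β⟯ QBar := (φ.comp (algebraMap ℚ⟮β⟯ K)).toAlgebra
  have hcard : Fintype.card (K →ₐ[ℚ⟮β⟯] QBar) = 2 := by
    rw [AlgHom.card ℚ⟮β⟯ K QBar, finrank_top hi hg hg0 hβ]
  have mk : ∀ χ : K →+* QBar, χ β = φ β → ∃ f : K →ₐ[ℚ⟮β⟯] QBar, (f : K →+* QBar) = χ := by
    intro χ hχ
    exact ⟨{ χ with commutes' := fun r => agree hχ r.1 r.2 }, rfl⟩
  obtain ⟨f1, h1⟩ := mk φ rfl
  obtain ⟨f2, h2⟩ := mk (cc φ) (cc_beta hr hβ φ)
  obtain ⟨f3, h3⟩ := mk ψ h
  have h12 : f1 ≠ f2 := by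
    rintro rfl
    exact cc_ne φ (h2.symm.trans h1)
  have h13 : f1 ≠ f3 := by
    rintro rfl
    exact hcon.1 (h3.symm.trans h1)
  have h23 : f2 ≠ f3 := by
    rintro rfl
    exact hcon.2 (h3.symm.trans h2)
  have h4 : ({f1, f2, f3} : Finset (K →ₐ[ℚ⟮β⟯] QBar)).card ≤ 2 :=
    hcard ▸ Finset.card_le_univ _
  rw [Finset.card_eq_three.2 ⟨f1, f2, f3, h12, h13, h23, rfl⟩] at h4
  omega

end EMB_

open EMB_ in
theorem tEMB : T_EMB := by
  intro g p hp hp3 hgp b hi hr hcyc K _ _ _ hfr hroot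
  obtain ⟨β, hβ⟩ := hroot
  obtain ⟨τ, ρ, hinj, hρ, hτ, hfix⟩ := hcyc
  have : Fact p.Prime := ⟨hp⟩
  have hg0 : 0 < g := by
    rcases Nat.eq_zero_or_pos g with rfl | h
    · have := Module.finrank_pos (R := ℚ) (M := K)
      omega
    · exact h
  set t : Equiv.Perm (K →+* QBar) := toPerm K τ with ht
  have tval : ∀ φ : K →+* QBar, (t φ) β = τ (φ β) := fun φ => toPerm_apply K τ φ β
  have tcc : ∀ φ : K →+* QBar, t (cc φ) = cc (t φ) := fun φ =>
    (hg_cc t ⟨τ, rfl⟩ φ).symm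
  have fib : ∀ {φ ψ : K →+* QBar}, ψ β = φ β → ψ = φ ∨ ψ = cc φ := fun h =>
    fibre hi hr hfr hg0 hβ h
  have ccβ : ∀ φ : K →+* QBar, cc φ β = φ β := cc_beta hr hβ
  obtain ⟨φ₀, hφ₀⟩ := emb_of_root hi hβ (hρ 0)
  -- powers of t
  have tpow : ∀ n : ℕ, ((t ^ n) φ₀) β = ρ (n : ZMod p) := by
    intro n
    induction n with
    | zero => rw [pow_zero, Equiv.Perm.one_apply, hφ₀, Nat.cast_zero]
    | succ n ih => rw [pow_succ', Equiv.Perm.mul_apply, tval, ih, hτ, Nat.cast_succ]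
  have tpcc : ∀ (n : ℕ) (φ : K →+* QBar), (t ^ n) (cc φ) = cc ((t ^ n) φ) := by
    intro n φ
    induction n with
    | zero => rfl
    | succ n ih => rw [pow_succ', Equiv.Perm.mul_apply, ih, tcc, Equiv.Perm.mul_apply]
  have tper : (t ^ (2 * p)) φ₀ = φ₀ := by
    have h1 : ((t ^ p) φ₀) β = φ₀ β := by
      rw [tpow, hφ₀, ZMod.natCast_self]
    rw [two_mul, pow_add, Equiv.Perm.mul_apply]
    rcases fib h1 with h | h
    · rw [h, h]
    · rw [h, tpcc, h, cc_cc]
  have tper' : ∀ m : ℕ, (t ^ (2 * p * m)) φ₀ = φ₀ := by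
    intro m
    induction m with
    | zero => rfl
    | succ m ih => rw [mul_add, mul_one, pow_add, Equiv.Perm.mul_apply, tper, ih]
  have tmod : ∀ n : ℕ, (t ^ (2 * (n % p))) φ₀ = (t ^ (2 * n)) φ₀ := by
    intro n
    have h1 : 2 * n = 2 * (n % p) + 2 * p * (n / p) := by
      have := Nat.mod_add_div n p
      calc 2 * n = 2 * (n % p + p * (n / p)) := by rw [this]
        _ = _ := by ring
    rw [h1, pow_add, Equiv.Perm.mul_apply, tper']
  have h2ne : (2 : ZMod p) ≠ 0 := by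
    intro h
    have h1 : ((2 : ℕ) : ZMod p) = 0 := by exact_mod_cast h
    rw [ZMod.natCast_eq_zero_iff] at h1
    have := Nat.le_of_dvd (by norm_num) h1
    omega
  let ρ' : ZMod p → (K →+* QBar) := fun k => (t ^ (2 * k.val)) φ₀
  have ρβ : ∀ k, (ρ' k) β = ρ (2 * k) := by
    intro k
    show ((t ^ (2 * k.val)) φ₀) β = _
    rw [tpow]
    congr 1
    push_cast
    rw [ZMod.natCast_zmod_val]
  have hinj2 : ∀ k l, (ρ' k) β = (ρ' l) β → k = l := by
    intro k l h
    rw [ρβ, ρβ] at h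
    exact mul_left_cancel₀ h2ne (hinj h)
  refine ⟨τ ^ 2, ρ', ?_, ?_, ?_, ?_⟩
  · intro k l h
    exact hinj2 k l (by rw [h])
  · intro k l h
    have h1 : k = l := hinj2 k l (by rw [h, ccβ])
    subst h1
    exact cc_ne _ h.symm
  · intro k
    rw [map_pow]
    show (t ^ 2) ((t ^ (2 * k.val)) φ₀) = (t ^ (2 * (k + 1).val)) φ₀
    rw [← Equiv.Perm.mul_apply, ← pow_add, ZMod.val_add, tmod, ZMod.val_one'' (by omega)]
    congr 2
    ring
  · intro φ hφ
    rw [map_pow]
    show (t ^ 2) φ = φ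
    have h1 : ∀ k, φ β ≠ ρ k := by
      intro k h
      obtain ⟨l, hl⟩ : ∃ l, k = 2 * l := ⟨2⁻¹ * k, by rw [← mul_assoc, mul_inv_cancel₀ h2ne, one_mul]⟩
      rw [hl, ← ρβ] at h
      rcases fib h with h2 | h2
      · exact (hφ l).1 h2
      · exact (hφ l).2 h2
    have h2 : (t φ) β = φ β := by
      rw [tval]
      exact hfix _ (root_of_emb φ hβ) h1
    rw [pow_two, Equiv.Perm.mul_apply]
    rcases fib h2 with h | h
    · rw [h, h]
    · rw [h, tcc, h, cc_cc]

end Pool.Agent.RFC
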