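import Pool.Agent.RFC.Targets
import Pool.Agent.FQW.Basic

set_option autoImplicit false

/-!
# One box: almost all real Weil polynomials have a long cycle
-/

namespace Pool.Agent.RFC

open Polynomial Finset
open Pool.Agent.CMT (QBar)
open Pool.Agent.AWP (poly IsRealWeil)
open Pool.Agent.FQW (HZ P idx Pat IsRt Cyc T_FRB1 T_RED T_PRG T_BOX T_IRW)
open scoped BigOperators

namespace LCELL_

/-- boxes are finite -/
theorem finite_box {n g : ℕ} (B : Fin n → ℕ) (hB : ∀ j, 1 ≤ B j) (d : Fin g → ℤ) :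
    {a : Fin g → ℤ | idx n B a = d}.Finite := by
  have h1 : (Set.univ.pi fun i : Fin g =>
      {x : ℤ | (if h : (i : ℕ) < n then x / (B ⟨i, h⟩ : ℤ) else x) = d i}).Finite := by
    refine Set.Finite.pi fun i => ?_
    by_cases h : (i : ℕ) < n
    · simp only [h, dite_true]
      refine (Set.finite_Icc ((B ⟨i, h⟩ : ℤ) * d i) ((B ⟨i, h⟩ : ℤ) * d i + (B ⟨i, h⟩ : ℤ))).subset
        ?_
      intro x hx
      have hx' : x / (B ⟨i, h⟩ : ℤ) = d i := hx
      have hb : (0 : ℤ) < (B ⟨i, h⟩ : ℤ) := by exact_mod_cast hB ⟨i, h⟩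
      have h2 := Int.mul_ediv_add_emod x (B ⟨i, h⟩ : ℤ)
      have h3 := Int.emod_nonneg x hb.ne'
      have h4 := Int.emod_lt_of_pos x hb
      rw [hx'] at h2
      constructor <;> linarith
    · simp only [h, dite_false]
      refine (Set.finite_singleton (d i)).subset ?_
      intro x hx
      exact hx
  refine h1.subset ?_
  intro a ha
  rw [Set.mem_univ_pi]
  intro i
  exact congrFun ha i

/-- the arithmetic in one polynomial -/
theorem long_of_pattern (hF1 : T_FRB1) (q g p l : ℕ) [Fact l.Prime] (hq : 2 ≤ q) (hl : 3 ≤ l)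
    (hlq : ¬ l ∣ q) (hp : p.Prime) (hp3 : 3 ≤ p) (hgp : g < 2 * p) (hpg : p < g)
    (a : Fin g → ℤ) (hirr : Irreducible (HZ q a))
    (hpat : Pat q p ((HZ q a).map (Int.castRingHom (ZMod l)))) (b : Fin g → ℤ)
    (hb : poly b = HZ q a) : Long b := by
  obtain ⟨τ, ρ, hcyc⟩ := hF1 q g p l hq hl hlq hp hp3 hgp hpg a hpat
  obtain ⟨h1, h2, h3, h4, h5⟩ := hcyc
  have hq0 : (q : QBar) ≠ 0 := by exact_mod_cast (by omega : q ≠ 0)
  refine ⟨by rw [hb]; exact hirr, p, hp, hp3, hgp, hpg, τ, fun k => ρ k + q / ρ k, ?_, ?_, ?_, ?_⟩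
  · intro k m hkm
    have hk0 := (h1 k).1
    have hm0 := (h1 m).1
    have hkm' : ρ k + q / ρ k = ρ m + q / ρ m := hkm
    field_simp at hkm'
    have h6 : (ρ k - ρ m) * (ρ k * ρ m - q) = 0 := by linear_combination hkm'
    rcases mul_eq_zero.mp h6 with h7 | h7
    · exact h2 (sub_eq_zero.mp h7)
    · exact absurd (sub_eq_zero.mp h7) (h3 k m)
  · intro k
    rw [hb]
    exact (h1 k).2
  · intro k
    show τ (ρ k + q / ρ k) = _
    rw [map_add, map_div₀, map_natCast, h4]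
  · intro β hβ hβk
    obtain ⟨α, hα⟩ := IsAlgClosed.exists_root (X ^ 2 - C β * X + C (q : QBar)) (by
      have : (X ^ 2 - C β * X + C (q : QBar)).degree = 2 := by compute_degree!
      rw [this]; norm_num)
    simp only [IsRoot.def, eval_add, eval_sub, eval_pow, eval_X, eval_mul, eval_C] at hα
    have hα0 : α ≠ 0 := by
      rintro rfl
      apply hq0
      linear_combination hα
    have hβα : β = α + q / α := by
      field_simp
      linear_combination -hα
    have hrt : IsRt q a α := ⟨hα0, by rw [← hβα, ← hb]; exact hβ⟩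
    have hfix := h5 α hrt (fun k => by
      have hk0 := (h1 k).1
      refine ⟨?_, ?_⟩
      · rintro rfl
        exact hβk k hβα
      · intro h6
        apply hβk k
        rw [hβα]
        have h7 : α = q / ρ k := by rw [eq_div_iff hk0, h6]
        rw [h7, div_div_cancel₀ hq0]
        ring)
    rw [hβα, map_add, map_div₀, map_natCast, hfix]

/-- the analysis -/
theorem large (u : ℝ) (hu : 0 < u) : ∃ g₀ : ℕ, ∀ g : ℕ, g₀ ≤ g → 2 ≤ Real.exp (u * g) := by
  obtain ⟨g₀, hg₀⟩ := exists_nat_ge (1 / u)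
  refine ⟨g₀, fun g hg => ?_⟩
  have h1 : (g₀ : ℝ) ≤ g := by exact_mod_cast hg
  have h2 : 1 ≤ u * g := by
    have h3 : 1 / u ≤ (g : ℝ) := hg₀.trans h1
    rw [div_le_iff₀ hu] at h3
    linarith
  have h3 := Real.add_one_le_exp (u * g)
  linarith

end LCELL_

open LCELL_ in
theorem tLCELL (hR : T_RED) (hPR : T_PRG) (hBX : T_BOX) (hF1 : T_FRB1) : T_LCELL := by
  intro q hq
  have hQ : 1 < √(q : ℝ) := by
    rw [Real.lt_sqrt (by norm_num)]
    have : (2 : ℝ) ≤ q := by exact_mod_cast hq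
    linarith
  obtain ⟨lam, hlam⟩ : ∃ lam, lam = Real.log √(q : ℝ) := ⟨_, rfl⟩
  have hlam0 : 0 < lam := hlam ▸ Real.log_pos hQ
  have hQe : √(q : ℝ) = Real.exp lam := by
    rw [hlam, Real.exp_log (by linarith)]
  obtain ⟨g₁, h₁⟩ := hR q hq (lam / 120) (by positivity) (by rw [← hlam]; linarith)
  obtain ⟨g₂, h₂⟩ := hPR
  obtain ⟨c, hc, g₃, h₃⟩ := hBX q hq (lam / 240) (by positivity)
  obtain ⟨g₄, h₄⟩ := large (lam / 240) (by positivity)
  obtain ⟨g₅, h₅⟩ := large (min (lam / 120) c / 2) (by positivity)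
  have hmin : 0 < min (lam / 120) c := lt_min (by positivity) hc
  refine ⟨lam / 120, min (lam / 120) c / 2, by positivity, by positivity,
    g₁ + g₂ + g₃ + g₄ + g₅ + 1800, fun g hg => ?_⟩
  obtain ⟨p, hp, hgp, hpg⟩ := h₂ g (by omega)
  have hn1 : 59 * g / 60 ≤ g := by omega
  have hn2 : g ≤ 2 * (59 * g / 60) := by omega
  have hpn : p + 4 ≤ 59 * g / 60 := by omega
  have he2 : 2 ≤ Real.exp (lam / 240 * g) := h₄ g (by omega)
  have he3 : 2 ≤ Real.exp (min (lam / 120) c / 2 * g) := h₅ g (by omega)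
  -- the sides of the box
  obtain ⟨B, hB1, hBle, hhalf, hBc⟩ : ∃ B : Fin (59 * g / 60) → ℕ, (∀ j, 1 ≤ B j) ∧
      (∀ j : Fin (59 * g / 60), (B j : ℝ) ≤
        √(q : ℝ) ^ (g - (j : ℕ)) * Real.exp (-(lam / 120 * g))) ∧
      (∀ j : Fin (59 * g / 60), √(q : ℝ) ^ (g - (j : ℕ)) * Real.exp (-(lam / 120 * g)) ≤
        2 * (B j : ℝ)) ∧
      ∀ j, Real.exp (lam / 240 * g) ≤ (B j : ℝ) := by
    have hE2 : Real.exp (lam / 120 * g) =
        Real.exp (lam / 240 * g) * Real.exp (lam / 240 * g) := by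
      rw [← Real.exp_add]
      congr 1
      ring
    have hbig : 2 * Real.exp (lam / 240 * g) ≤ Real.exp (lam / 120 * g) := by
      rw [hE2]
      exact mul_le_mul_of_nonneg_right he2 (Real.exp_pos _).le
    have hkey : ∀ j : Fin (59 * g / 60), Real.exp (lam / 120 * g) ≤
        √(q : ℝ) ^ (g - (j : ℕ)) * Real.exp (-(lam / 120 * g)) := by
      intro j
      rw [hQe, ← Real.exp_nat_mul, ← Real.exp_add]
      refine Real.exp_le_exp.2 ?_
      have hj := j.2
      have h1 : g ≤ 60 * (g - (j : ℕ)) := by omega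
      have h2 : (g : ℝ) ≤ 60 * ((g - (j : ℕ) : ℕ) : ℝ) := by exact_mod_cast h1
      have h3 : lam * (g : ℝ) ≤ lam * (60 * ((g - (j : ℕ) : ℕ) : ℝ)) :=
        mul_le_mul_of_nonneg_left h2 hlam0.le
      linarith
    have hone : ∀ j : Fin (59 * g / 60), 1 ≤ ⌊√(q : ℝ) ^ (g - (j : ℕ)) *
        Real.exp (-(lam / 120 * g))⌋₊ := by
      intro j
      refine Nat.le_floor ?_
      push_cast
      have h1 := hkey j
      linarith
    have hhalf : ∀ j : Fin (59 * g / 60), √(q : ℝ) ^ (g - (j : ℕ)) *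
        Real.exp (-(lam / 120 * g)) ≤ 2 * ((⌊√(q : ℝ) ^ (g - (j : ℕ)) *
          Real.exp (-(lam / 120 * g))⌋₊ : ℕ) : ℝ) := by
      intro j
      have h2 := Nat.lt_floor_add_one (√(q : ℝ) ^ (g - (j : ℕ)) *
        Real.exp (-(lam / 120 * g)))
      have h3 : (1 : ℝ) ≤ ((⌊√(q : ℝ) ^ (g - (j : ℕ)) *
          Real.exp (-(lam / 120 * g))⌋₊ : ℕ) : ℝ) := by exact_mod_cast hone j
      linarith
    refine ⟨fun j => ⌊√(q : ℝ) ^ (g - (j : ℕ)) * Real.exp (-(lam / 120 * g))⌋₊, hone,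
      fun j => Nat.floor_le (by positivity), hhalf, fun j => ?_⟩
    have h1 := hkey j
    have h2 := hhalf j
    linarith
  refine ⟨59 * g / 60, hn1, hn2, B, hB1, hBle, fun d => ?_⟩
  · have hfin := finite_box B hB1 d
    have hRd := h₁ g (by omega) (59 * g / 60) hn1 hn2 B hhalf d
    have hBd := h₃ g (by omega) (59 * g / 60) p hn1 hp (by omega) hgp hpn B hBc d
    have hsub : {a ∈ P q g | idx (59 * g / 60) B a = d ∧
        ¬ ∀ b : Fin g → ℤ, poly b = HZ q a → Long b} ⊆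
        {a ∈ P q g | idx (59 * g / 60) B a = d ∧ ¬ Irreducible (HZ q a)} ∪
        {a : Fin g → ℤ | idx (59 * g / 60) B a = d ∧ ¬ ∃ (l : ℕ) (_ : Fact l.Prime), 3 ≤ l ∧
          ¬ l ∣ q ∧ Pat q p ((HZ q a).map (Int.castRingHom (ZMod l)))} := by
      rintro a ⟨haP, had, hab⟩
      by_cases hirr : Irreducible (HZ q a)
      · right
        refine ⟨had, ?_⟩
        rintro ⟨l, hlf, hl3, hlq, hpat⟩
        refine hab fun b hb => ?_
        exact long_of_pattern hF1 q g p l hq hl3 hlq hp (by omega) hgp (by omega) a hirr hpat b hb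
      · left
        exact ⟨haP, had, hirr⟩
    have hcard : {a ∈ P q g | idx (59 * g / 60) B a = d ∧
        ¬ ∀ b : Fin g → ℤ, poly b = HZ q a → Long b}.ncard ≤
        {a ∈ P q g | idx (59 * g / 60) B a = d ∧ ¬ Irreducible (HZ q a)}.ncard +
        {a : Fin g → ℤ | idx (59 * g / 60) B a = d ∧ ¬ ∃ (l : ℕ) (_ : Fact l.Prime), 3 ≤ l ∧
          ¬ l ∣ q ∧ Pat q p ((HZ q a).map (Int.castRingHom (ZMod l)))}.ncard := by
      refine (Set.ncard_le_ncard hsub ?_).trans (Set.ncard_union_le _ _)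
      refine hfin.subset ?_
      rintro a (ha | ha)
      · exact ha.2.1
      · exact ha.1
    have hcard' : (({a ∈ P q g | idx (59 * g / 60) B a = d ∧
        ¬ ∀ b : Fin g → ℤ, poly b = HZ q a → Long b}.ncard : ℕ) : ℝ) ≤
        ({a ∈ P q g | idx (59 * g / 60) B a = d ∧ ¬ Irreducible (HZ q a)}.ncard : ℕ) +
        ({a : Fin g → ℤ | idx (59 * g / 60) B a = d ∧ ¬ ∃ (l : ℕ) (_ : Fact l.Prime), 3 ≤ l ∧
          ¬ l ∣ q ∧ Pat q p ((HZ q a).map (Int.castRingHom (ZMod l)))}.ncard : ℕ) := by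
      exact_mod_cast hcard
    have hprod : (0 : ℝ) ≤ ∏ j, (B j : ℝ) := Finset.prod_nonneg fun j _ => Nat.cast_nonneg _
    have hexp : Real.exp (-(lam / 120 * g)) + Real.exp (-(c * g)) ≤
        Real.exp (-(min (lam / 120) c / 2 * g)) := by
      have hg0 : (0 : ℝ) ≤ g := Nat.cast_nonneg g
      have e1 : Real.exp (-(lam / 120 * g)) ≤ Real.exp (-(min (lam / 120) c * g)) := by
        refine Real.exp_le_exp.2 (neg_le_neg ?_)
        exact mul_le_mul_of_nonneg_right (min_le_left _ _) hg0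
      have e2 : Real.exp (-(c * g)) ≤ Real.exp (-(min (lam / 120) c * g)) := by
        refine Real.exp_le_exp.2 (neg_le_neg ?_)
        exact mul_le_mul_of_nonneg_right (min_le_right _ _) hg0
      have e3 : Real.exp (-(min (lam / 120) c / 2 * g)) =
          Real.exp (min (lam / 120) c / 2 * g) * Real.exp (-(min (lam / 120) c * g)) := by
        rw [← Real.exp_add]
        congr 1
        ring
      have e4 : 2 * Real.exp (-(min (lam / 120) c * g)) ≤
          Real.exp (min (lam / 120) c / 2 * g) * Real.exp (-(min (lam / 120) c * g)) :=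
        mul_le_mul_of_nonneg_right he3 (Real.exp_pos _).le
      rw [e3]
      linarith
    calc (({a ∈ P q g | idx (59 * g / 60) B a = d ∧
        ¬ ∀ b : Fin g → ℤ, poly b = HZ q a → Long b}.ncard : ℕ) : ℝ)
        ≤ Real.exp (-(lam / 120 * g)) * ∏ j, (B j : ℝ) +
          Real.exp (-(c * g)) * ∏ j, (B j : ℝ) := hcard'.trans (add_le_add hRd hBd)
      _ = (Real.exp (-(lam / 120 * g)) + Real.exp (-(c * g))) * ∏ j, (B j : ℝ) := by ring
      _ ≤ _ := mul_le_mul_of_nonneg_right hexp hprod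

end Pool.Agent.RFC
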