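import Pool.Agent.RFC.Targets2

/-!
# LOW: Weil weights have `g` elements
-/

set_option autoImplicit false

namespace Pool.Agent.RFC

open Polynomial Finset NumberField
open Pool.Agent.CMT (QBar IsCMType TateByDivisors TateWeight Divisorial cc)

namespace LOW_

variable {K : Type} [Field K] [NumberField K] [IsCMField K]

lemma conj_delta (δ : K) (r : ℚ) (hr : 0 < r) (hδ : δ ^ 2 = -(r : K)) :
    IsCMField.complexConj K δ = -δ := by
  obtain ⟨ψ⟩ : Nonempty (K →+* ℂ) := inferInstance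
  apply ψ.injective
  rw [IsCMField.complexEmbedding_complexConj, map_neg]
  have h1 : (ψ δ) ^ 2 = -(r : ℂ) := by
    rw [← map_pow, hδ, map_neg, map_ratCast]
  have hr' : (0 : ℝ) < (r : ℝ) := by exact_mod_cast hr
  have h2 : (ψ δ).re * (ψ δ).im = 0 ∧ (ψ δ).re ^ 2 - (ψ δ).im ^ 2 = -(r : ℝ) := by
    have hre := congrArg Complex.re h1
    have him := congrArg Complex.im h1
    have e0 : ((r : ℂ)) = (((r : ℝ) : ℝ) : ℂ) := by push_cast; rfl
    rw [e0] at hre him
    simp only [sq, Complex.mul_re, Complex.mul_im, Complex.neg_re, Complex.neg_im,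
      Complex.ofReal_re, Complex.ofReal_im, neg_zero] at hre him
    refine ⟨by linarith, by nlinarith⟩
  have h3 : (ψ δ).re = 0 := by
    rcases mul_eq_zero.1 h2.1 with h | h
    · exact h
    · rw [h] at h2
      nlinarith [h2.2, sq_nonneg (ψ δ).re]
  apply Complex.ext
  · rw [Complex.conj_re, Complex.neg_re, h3, neg_zero]
  · rw [Complex.conj_im, Complex.neg_im]

end LOW_

open LOW_ in
theorem tLOW : T_LOW := by
  classical
  intro K _ _ _ g n i δ r D Δ hfr hr hδ hi hΔ hD B hB hW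
  obtain ⟨φ₀, f, hf⟩ := hW
  have hc := conj_delta δ r hr hδ
  have hδ0 : δ ≠ 0 := by
    rintro rfl
    have h1 : (r : K) = 0 := by
      rw [zero_pow two_ne_zero] at hδ
      exact neg_eq_zero.1 hδ.symm
    have h2 : r = 0 := by exact_mod_cast h1
    exact hr.ne' h2
  let c : K →+* K := (IsCMField.complexConj K : K ≃+* K).toRingHom
  have hcδ : c δ = -δ := hc
  let A : Finset (K →+* QBar) := univ.filter (fun φ => φ δ = φ₀ δ)
  have hne : φ₀ δ ≠ 0 := fun h => hδ0 (φ₀.injective (by rw [h, map_zero]))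
  have hsq : ∀ φ : K →+* QBar, φ δ = φ₀ δ ∨ φ δ = -φ₀ δ := by
    intro φ
    have h1 : (φ δ) ^ 2 = (φ₀ δ) ^ 2 := by
      rw [← map_pow, ← map_pow, hδ, map_neg, map_neg, map_ratCast, map_ratCast]
    exact sq_eq_sq_iff_eq_or_eq_neg.1 h1
  have hcc : ∀ x : K, c (c x) = x := fun x => IsCMField.complexConj_apply_apply K x
  have hinj : ∀ φ ψ : K →+* QBar, φ.comp c = ψ.comp c → φ = ψ := by
    intro φ ψ h
    ext x
    have h1 := RingHom.congr_fun h (c x)
    rw [RingHom.comp_apply, RingHom.comp_apply, hcc] at h1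
    exact h1
  have hA1 : A.card ≤ (univ \ A).card := by
    refine Finset.card_le_card_of_injOn (fun φ => φ.comp c) (fun φ hφ => ?_)
      (fun φ _ ψ _ h => hinj φ ψ h)
    have h1 : φ δ = φ₀ δ := (Finset.mem_filter.1 hφ).2
    refine Finset.mem_coe.2 (Finset.mem_sdiff.2 ⟨Finset.mem_univ _, fun h => ?_⟩)
    have h2 : φ (c δ) = φ₀ δ := (Finset.mem_filter.1 h).2
    rw [hcδ, map_neg, h1] at h2
    have h3 : φ₀ δ + φ₀ δ = 0 := by
      nth_rewrite 1 [← h2]
      exact neg_add_cancel _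
    have h4 : (2 : QBar) * φ₀ δ = 0 := by rw [two_mul]; exact h3
    rcases mul_eq_zero.1 h4 with h5 | h5
    · exact two_ne_zero h5
    · exact hne h5
  have hA2 : (univ \ A).card ≤ A.card := by
    refine Finset.card_le_card_of_injOn (fun φ => φ.comp c) (fun φ hφ => ?_)
      (fun φ _ ψ _ h => hinj φ ψ h)
    have h1 : ¬ φ δ = φ₀ δ := fun h =>
      (Finset.mem_sdiff.1 (Finset.mem_coe.1 hφ)).2 (Finset.mem_filter.2 ⟨Finset.mem_univ _, h⟩)
    have h2 : φ δ = -φ₀ δ := (hsq φ).resolve_left h1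
    refine Finset.mem_coe.2 (Finset.mem_filter.2 ⟨Finset.mem_univ _, ?_⟩)
    change φ (c δ) = φ₀ δ
    rw [hcδ, map_neg, h2, neg_neg]
  have hcard : (univ : Finset (K →+* QBar)).card = 2 * g := by
    rw [Finset.card_univ, NumberField.Embeddings.card K QBar, hfr]
  have hAg : A.card = g := by
    have h1 : (univ \ A).card + A.card = (univ : Finset (K →+* QBar)).card :=
      Finset.card_sdiff_add_card_eq_card (Finset.subset_univ _)
    omega
  have hBsub : B ⊆ Δ := fun x hx => (hD x).2 ⟨B, hB, hx⟩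
  have hBeq : A.image (fun φ => (φ, f φ)) ⊆ B := by
    intro x hx
    obtain ⟨φ, hφ, rfl⟩ := Finset.mem_image.1 hx
    exact (hf _).2 ⟨(Finset.mem_filter.1 hφ).2, rfl⟩
  have h1 : g ≤ Δ.card := by
    calc g = (A.image (fun φ => (φ, f φ))).card := by
          rw [Finset.card_image_of_injective _ (fun a b h => congrArg Prod.fst h), hAg]
      _ ≤ B.card := Finset.card_le_card hBeq
      _ ≤ Δ.card := Finset.card_le_card hBsub
  omega

end Pool.Agent.RFC
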