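import Pool.Agent.RFC.Targets

/-!
# QUAD: an invariant half system comes from an imaginary quadratic subfield
-/

set_option autoImplicit false

namespace Pool.Agent.RFC

open Polynomial Finset NumberField
open Pool.Agent.CMT (QBar IsCMType TateByDivisors cc cc_cc)
open Pool.Agent.CMTP (HG toPerm toPerm_apply isAlgebraic_QBar)
open scoped BigOperators

namespace QUAD_

theorem fixed_range (k : Type) [Field k] [CharZero k] [Algebra k QBar] (y : QBar)
    (h : ∀ s : QBar ≃ₐ[k] QBar, s y = y) : ∃ x : k, algebraMap k QBar x = y := by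
  have h1 : Algebra.IsAlgebraic k QBar := isAlgebraic_QBar k
  have h2 : IsAlgClosure k QBar := ⟨inferInstance, h1⟩
  have h3 : IsGalois k QBar := IsAlgClosure.isGalois k QBar
  exact (InfiniteGalois.mem_range_algebraMap_iff_fixed y).2 h

theorem fixed_rat (y : QBar) (h : ∀ s : QBar ≃+* QBar, s y = y) : ∃ x : ℚ, (x : QBar) = y := by
  obtain ⟨x, hx⟩ := fixed_range ℚ y fun s => h s.toRingEquiv
  refine ⟨x, ?_⟩
  rw [← hx]
  simp

theorem fixed_emb {K : Type} [Field K] [NumberField K] (φ : K →+* QBar) (y : QBar)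
    (h : ∀ s : QBar ≃+* QBar, (∀ x, s (φ x) = φ x) → s y = y) : ∃ x : K, φ x = y := by
  let : Algebra K QBar := φ.toAlgebra
  exact fixed_range K y fun s => h s.toRingEquiv fun x => s.commutes x

variable {K : Type} [Field K] [NumberField K]

open Classical in
/-- the signed sum -/
noncomputable def eta (C : Finset (K →+* QBar)) (x : K) : QBar :=
  ∑ φ : K →+* QBar, (if φ ∈ C then (1 : QBar) else -1) * φ x

theorem exists_eta (C : Finset (K →+* QBar)) : ∃ x : K, eta C x ≠ 0 := by
  classical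
  by_contra hcon
  push Not at hcon
  have hli := linearIndependent_monoidHom K QBar
  have hinj : Function.Injective (fun φ : K →+* QBar => (φ : K →* QBar)) := by
    intro φ ψ h
    ext x
    exact DFunLike.congr_fun h x
  have hli2 := hli.comp _ hinj
  rw [Fintype.linearIndependent_iff] at hli2
  have h0 := hli2 (fun φ => if φ ∈ C then (1 : QBar) else -1) (by
    funext y
    have h2 := hcon y
    unfold eta at h2
    rw [Finset.sum_apply]
    exact (Finset.sum_congr rfl fun φ _ => rfl).trans h2)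
  obtain ⟨φ⟩ : Nonempty (K →+* QBar) := ⟨((IsAlgClosed.lift : K →ₐ[ℚ] QBar) : K →+* QBar)⟩
  have h1 : (if φ ∈ C then (1 : QBar) else -1) = 0 := h0 φ
  split_ifs at h1
  · exact one_ne_zero h1
  · exact one_ne_zero (neg_eq_zero.1 h1)

theorem map_eta_pos (C : Finset (K →+* QBar)) (s : QBar ≃+* QBar)
    (h : ∀ φ, toPerm K s φ ∈ C ↔ φ ∈ C) (x : K) : s (eta C x) = eta C x := by
  classical
  unfold eta
  rw [map_sum]
  refine Fintype.sum_equiv (toPerm K s) _ _ fun φ => ?_
  rw [map_mul, toPerm_apply]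
  congr 1
  by_cases h1 : φ ∈ C
  · rw [if_pos h1, if_pos ((h φ).2 h1), map_one]
  · rw [if_neg h1, if_neg (fun h2 => h1 ((h φ).1 h2)), map_neg, map_one]

theorem map_eta_neg (C : Finset (K →+* QBar)) (s : QBar ≃+* QBar)
    (h : ∀ φ, toPerm K s φ ∈ C ↔ φ ∉ C) (x : K) : s (eta C x) = -eta C x := by
  classical
  unfold eta
  rw [map_sum, ← Finset.sum_neg_distrib]
  refine Fintype.sum_equiv (toPerm K s) _ _ fun φ => ?_
  rw [map_mul, toPerm_apply, ← neg_mul]
  congr 1
  by_cases h1 : φ ∈ C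
  · rw [if_pos h1, if_neg (fun h2 => (h φ).1 h2 h1), map_one, neg_neg]
  · rw [if_neg h1, if_pos ((h φ).2 h1), map_neg, map_one]

theorem conj_eta [IsCMField K] (C : Finset (K →+* QBar)) (hC : ∀ φ, φ ∈ C ↔ cc φ ∉ C)
    (j : QBar →+* ℂ) (x : K) : starRingEnd ℂ (j (eta C x)) = -j (eta C x) := by
  classical
  unfold eta
  rw [map_sum, map_sum, ← Finset.sum_neg_distrib]
  have hinv : Function.Involutive (fun φ : K →+* QBar => cc φ) := fun φ => cc_cc φ
  refine Fintype.sum_equiv (Function.Involutive.toPerm _ hinv) _ _ fun φ => ?_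
  have e : (Function.Involutive.toPerm _ hinv φ) = cc φ := rfl
  rw [e, map_mul, map_mul, map_mul, ← neg_mul]
  have h1 : starRingEnd ℂ (j (φ x)) = j (cc φ x) := by
    have := IsCMField.complexEmbedding_complexConj (K := K) (j.comp φ) x
    exact this.symm
  rw [h1]
  congr 1
  by_cases h2 : φ ∈ C
  · rw [if_pos h2, if_neg ((hC φ).1 h2)]
    simp
  · have h3 : cc φ ∈ C := by
      by_contra h4
      exact h2 ((hC φ).2 h4)
    rw [if_neg h2, if_pos h3]
    simp

end QUAD_

open QUAD_ in
theorem tQUAD : T_QUAD := by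
  classical
  intro K _ _ _ C hC hG
  obtain ⟨x, hx⟩ := exists_eta C
  set η := eta C x with hη
  have hs : ∀ s : QBar ≃+* QBar, s η = η ∨ s η = -η := by
    intro s
    rcases hG (toPerm K s) ⟨s, rfl⟩ with h | h
    · exact Or.inl (map_eta_pos C s h x)
    · exact Or.inr (map_eta_neg C s h x)
  obtain ⟨t, ht⟩ := fixed_rat (η ^ 2) (by
    intro s
    rw [map_pow]
    rcases hs s with h | h
    · rw [h]
    · rw [h, neg_sq])
  -- complex embedding
  have halg : Algebra.IsAlgebraic ℚ QBar := isAlgebraic_QBar ℚ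
  obtain ⟨j⟩ : Nonempty (QBar →+* ℂ) := ⟨((IsAlgClosed.lift : QBar →ₐ[ℚ] ℂ) : QBar →+* ℂ)⟩
  have hj := conj_eta C hC j x
  rw [← hη] at hj
  have hjne : j η ≠ 0 := by
    rw [Ne, map_eq_zero]
    exact hx
  have hre : (j η).re = 0 := by
    have := congrArg Complex.re hj
    rw [Complex.conj_re, Complex.neg_re] at this
    linarith
  have him : (j η).im ≠ 0 := by
    intro h
    exact hjne (Complex.ext hre h)
  have ht2 : (t : ℝ) = -((j η).im ^ 2) := by
    have h1 : j (η ^ 2) = ((t : ℝ) : ℂ) := by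
      rw [← ht]
      simp
    rw [map_pow] at h1
    have h2 := congrArg Complex.re h1
    rw [Complex.ofReal_re, sq, Complex.mul_re, hre] at h2
    rw [← h2]
    ring
  have htneg : t < 0 := by
    have h1 : (t : ℝ) < 0 := by
      rw [ht2]
      have : 0 < (j η).im ^ 2 := by positivity
      linarith
    exact_mod_cast h1
  -- an embedding in C
  obtain ⟨φ₀, hφ₀⟩ : ∃ φ, φ ∈ C := by
    obtain ⟨φ⟩ : Nonempty (K →+* QBar) := ⟨((IsAlgClosed.lift : K →ₐ[ℚ] QBar) : K →+* QBar)⟩
    by_cases h : φ ∈ C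
    · exact ⟨φ, h⟩
    · refine ⟨cc φ, ?_⟩
      by_contra h2
      exact h ((hC φ).2 h2)
  obtain ⟨δ, hδ⟩ := fixed_emb φ₀ η (by
    intro s hs0
    rcases hG (toPerm K s) ⟨s, rfl⟩ with h | h
    · exact map_eta_pos C s h x
    · exfalso
      have h1 : toPerm K s φ₀ = φ₀ := by
        ext y
        rw [toPerm_apply]
        exact hs0 y
      have h2 := h φ₀
      rw [h1] at h2
      tauto)
  refine ⟨δ, -t, by linarith, ?_, η, ?_, ?_⟩
  · apply φ₀.injective
    rw [map_pow, hδ, ← ht]
    simp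
  · rw [← ht]
    simp
  · intro φ
    obtain ⟨_, ⟨s, rfl⟩, hs1⟩ := Pool.Agent.CMTP.transitive K φ₀ φ
    have h1 : φ δ = s η := by
      rw [← hs1, toPerm_apply, hδ]
    rcases hG (toPerm K s) ⟨s, rfl⟩ with h | h
    · have h2 : φ ∈ C := by
        rw [← hs1]
        exact (h φ₀).2 hφ₀
      have h3 : s η = η := map_eta_pos C s h x
      rw [h1, h3]
      exact ⟨fun _ => rfl, fun _ => h2⟩
    · have h2 : φ ∉ C := by
        rw [← hs1]
        intro h4
        exact (h φ₀).1 h4 hφ₀
      have h3 : s η = -η := map_eta_neg C s h x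
      rw [h1, h3]
      refine ⟨fun h4 => absurd h4 h2, fun h4 => ?_⟩
      exfalso
      apply hx
      have h5 : (2 : QBar) * η = 0 := by linear_combination -h4
      rcases mul_eq_zero.1 h5 with h6 | h6
      · exact absurd h6 two_ne_zero
      · exact h6

end Pool.Agent.RFC
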