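import Mathlib
import Pool.Agent.RFC.Targets2

set_option autoImplicit false

/-!
# SPLIT: sections over a half system and pairs
-/

namespace Pool.Agent.RFC

open Finset

namespace SPLIT_

theorem match_aux {n t : ℕ} (A A' : Finset (Fin n)) (h : A.card = A'.card + t) :
    ∃ (F : Fin t → Fin n) (M : Fin n → Fin n), (∀ k, F k ∈ A) ∧
      (∀ k k', F k = F k' → k = k') ∧ (∀ l ∈ A', M l ∈ A) ∧
      (∀ l ∈ A', ∀ l' ∈ A', M l = M l' → l = l') ∧ (∀ l ∈ A', ∀ k, M l ≠ F k) ∧
      ∀ j ∈ A, (∃ k, F k = j) ∨ ∃ l ∈ A', M l = j := by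
  classical
  have hc : Fintype.card A = Fintype.card (A' ⊕ Fin t) := by
    rw [Fintype.card_sum, Fintype.card_coe, Fintype.card_coe, Fintype.card_fin, h]
  let e : A ≃ (A' ⊕ Fin t) := Fintype.equivOfCardEq hc
  have hM : ∀ l (hl : l ∈ A'), (if h : l ∈ A' then (e.symm (Sum.inl ⟨l, h⟩) : Fin n) else l) =
      (e.symm (Sum.inl ⟨l, hl⟩) : Fin n) := fun l hl => dif_pos hl
  refine ⟨fun k => (e.symm (Sum.inr k) : Fin n),
    fun l => if h : l ∈ A' then (e.symm (Sum.inl ⟨l, h⟩) : Fin n) else l, fun k => Subtype.coe_prop _,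
    fun k k' hk => ?_, fun l hl => ?_, fun l hl l' hl' hll => ?_, fun l hl k hk => ?_,
    fun j hj => ?_⟩
  · have := e.symm.injective (Subtype.ext hk)
    exact Sum.inr_injective this
  · simp only [hM l hl]
    exact Subtype.coe_prop _
  · simp only [hM l hl, hM l' hl'] at hll
    have := Sum.inl_injective (e.symm.injective (Subtype.ext hll))
    exact congrArg Subtype.val this
  · simp only [hM l hl] at hk
    have := e.symm.injective (Subtype.ext hk)
    exact Sum.inl_ne_inr this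
  · rcases h1 : e ⟨j, hj⟩ with l | k
    · right
      refine ⟨l.1, l.2, ?_⟩
      simp only [hM l.1 l.2]
      have : e.symm (Sum.inl l) = ⟨j, hj⟩ := by rw [← h1, Equiv.symm_apply_apply]
      exact congrArg Subtype.val this
    · left
      refine ⟨k, ?_⟩
      have : e.symm (Sum.inr k) = ⟨j, hj⟩ := by rw [← h1, Equiv.symm_apply_apply]
      exact congrArg Subtype.val this

end SPLIT_

theorem tSPLIT : T_SPLIT := by
  classical
  intro X _ _ ι C n t Δ hι hC hcard
  let A : X → Finset (Fin n) := fun x => univ.filter fun j => (x, j) ∈ Δ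
  have hA : ∀ x j, j ∈ A x ↔ (x, j) ∈ Δ := fun x j => by simp [A]
  have hAc : ∀ x, {j : Fin n | (x, j) ∈ Δ}.ncard = (A x).card := by
    intro x
    rw [← Set.ncard_coe_finset]
    congr 1
    ext j
    rw [Finset.mem_coe, hA]
    rfl
  have key : ∀ x ∈ C, ∃ (F : Fin t → Fin n) (M : Fin n → Fin n), (∀ k, F k ∈ A x) ∧
      (∀ k k', F k = F k' → k = k') ∧ (∀ l ∈ A (ι x), M l ∈ A x) ∧
      (∀ l ∈ A (ι x), ∀ l' ∈ A (ι x), M l = M l' → l = l') ∧ (∀ l ∈ A (ι x), ∀ k, M l ≠ F k) ∧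
      ∀ j ∈ A x, (∃ k, F k = j) ∨ ∃ l ∈ A (ι x), M l = j := by
    intro x hx
    have h := hcard x hx
    rw [hAc, hAc] at h
    exact SPLIT_.match_aux _ _ h
  have hC0 : ∀ x, x ∉ C → ι x ∈ C := by
    intro x hx
    by_contra h
    exact hx ((hC x).2 h)
  have key2 : ∀ x, ∃ (F : Fin t → Fin n) (M : Fin n → Fin n), x ∈ C → (∀ k, F k ∈ A x) ∧
      (∀ k k', F k = F k' → k = k') ∧ (∀ l ∈ A (ι x), M l ∈ A x) ∧
      (∀ l ∈ A (ι x), ∀ l' ∈ A (ι x), M l = M l' → l = l') ∧ (∀ l ∈ A (ι x), ∀ k, M l ≠ F k) ∧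
      ∀ j ∈ A x, (∃ k, F k = j) ∨ ∃ l ∈ A (ι x), M l = j := by
    intro x
    by_cases hx : x ∈ C
    · obtain ⟨F, M, h⟩ := key x hx
      exact ⟨F, M, fun _ => h⟩
    · obtain ⟨F, M, _⟩ := key (ι x) (hC0 x hx)
      exact ⟨F, M, fun h => absurd h hx⟩
  choose F M hFM using key2
  let Bs : Fin t → Finset (X × Fin n) := fun k => univ.filter fun y => y.1 ∈ C ∧ y.2 = F y.1 k
  let P : X × Fin n → Finset (X × Fin n) := fun z => {z, (ι z.1, M (ι z.1) z.2)}
  have hBs : ∀ k y, y ∈ Bs k ↔ y.1 ∈ C ∧ y.2 = F y.1 k := fun k y => by simp [Bs]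
  have hP : ∀ z y, y ∈ P z ↔ y = z ∨ y = (ι z.1, M (ι z.1) z.2) := fun z y => by simp [P]
  let D : Finset (Finset (X × Fin n)) :=
    (univ.image Bs) ∪ ((Δ.filter fun z => z.1 ∉ C).image P)
  have hD : ∀ B, B ∈ D ↔ (∃ k, Bs k = B) ∨ ∃ z, z ∈ Δ ∧ z.1 ∉ C ∧ P z = B := by
    intro B
    simp only [D, Finset.mem_union, Finset.mem_image, Finset.mem_filter, Finset.mem_univ, true_and,
      and_assoc]
  -- a section and a pair are disjoint
  have hsp : ∀ k z, z ∈ Δ → z.1 ∉ C → ∀ y, y ∈ Bs k → y ∈ P z → False := by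
    intro k z hz hzC y h1 h2
    rw [hBs] at h1
    rw [hP] at h2
    have hz2 : z.2 ∈ A (ι (ι z.1)) := by
      rw [hι, hA]
      exact hz
    rcases h2 with rfl | h2
    · exact hzC h1.1
    · have h3 := (hFM (ι z.1) (hC0 _ hzC)).2.2.2.2.1 z.2 hz2 k
      apply h3
      rw [h2] at h1
      exact h1.2
  refine ⟨D, ?_, ?_, ?_⟩
  · intro B1 h1 B2 h2 hne
    rw [Finset.mem_coe, hD] at h1 h2
    rw [Function.onFun, id, id, Finset.disjoint_left]
    intro y hy1 hy2
    rcases h1 with ⟨k, rfl⟩ | ⟨z, hz, hzC, rfl⟩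
    · rcases h2 with ⟨k', rfl⟩ | ⟨z', hz', hzC', rfl⟩
      · rw [hBs] at hy1 hy2
        have h3 := (hFM y.1 hy1.1).2.1 k k' (hy1.2.symm.trans hy2.2)
        exact hne (by rw [h3])
      · exact hsp k z' hz' hzC' y hy1 hy2
    · rcases h2 with ⟨k', rfl⟩ | ⟨z', hz', hzC', rfl⟩
      · exact hsp k' z hz hzC y hy2 hy1
      · rw [hP] at hy1 hy2
        apply hne
        have hzz : z = z' := by
          rcases hy1 with rfl | hy1
          · rcases hy2 with h3 | h3
            · exact h3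
            · exfalso
              apply hzC
              rw [h3]
              exact hC0 _ hzC'
          · rcases hy2 with rfl | hy2
            · exfalso
              apply hzC'
              rw [hy1]
              exact hC0 _ hzC
            · rw [hy1] at hy2
              have h3 : ι z.1 = ι z'.1 := congrArg Prod.fst hy2
              have h4 : z.1 = z'.1 := by
                rw [← hι z.1, h3, hι]
              have h5 : M (ι z.1) z.2 = M (ι z'.1) z'.2 := congrArg Prod.snd hy2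
              rw [← h4] at h5
              have hz2 : z.2 ∈ A (ι (ι z.1)) := by
                rw [hι, hA]
                exact hz
              have hz2' : z'.2 ∈ A (ι (ι z.1)) := by
                rw [hι, hA, h4]
                exact hz'
              have h6 := (hFM (ι z.1) (hC0 _ hzC)).2.2.2.1 z.2 hz2 z'.2 hz2' h5
              exact Prod.ext h4 h6
        rw [hzz]
  · intro y
    constructor
    · intro hy
      by_cases hyC : y.1 ∈ C
      · have hy2 : y.2 ∈ A y.1 := by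
          rw [hA]
          exact hy
        rcases (hFM y.1 hyC).2.2.2.2.2 y.2 hy2 with ⟨k, hk⟩ | ⟨l, hl, hlM⟩
        · refine ⟨Bs k, (hD _).2 (Or.inl ⟨k, rfl⟩), ?_⟩
          rw [hBs]
          exact ⟨hyC, hk.symm⟩
        · rw [hA] at hl
          refine ⟨P (ι y.1, l), (hD _).2 (Or.inr ⟨(ι y.1, l), hl, (hC y.1).1 hyC, rfl⟩), ?_⟩
          rw [hP]
          right
          show y = (ι (ι y.1), M (ι (ι y.1)) l)
          rw [hι, hlM]
      · refine ⟨P y, (hD _).2 (Or.inr ⟨y, hy, hyC, rfl⟩), ?_⟩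
        rw [hP]
        exact Or.inl rfl
    · rintro ⟨B, hB, hyB⟩
      rw [hD] at hB
      rcases hB with ⟨k, rfl⟩ | ⟨z, hz, hzC, rfl⟩
      · rw [hBs] at hyB
        have h1 := (hFM y.1 hyB.1).1 k
        rw [← hyB.2, hA] at h1
        exact h1
      · rw [hP] at hyB
        rcases hyB with rfl | rfl
        · exact hz
        · have hz2 : z.2 ∈ A (ι (ι z.1)) := by
            rw [hι, hA]
            exact hz
          have h1 := (hFM (ι z.1) (hC0 _ hzC)).2.2.1 z.2 hz2
          rw [hA] at h1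
          exact h1
  · intro B hB
    rw [hD] at hB
    rcases hB with ⟨k, rfl⟩ | ⟨z, hz, hzC, rfl⟩
    · exact Or.inr ⟨fun x => F x k, hBs k⟩
    · exact Or.inl ⟨z.1, z.2, M (ι z.1) z.2, hP z⟩

end Pool.Agent.RFC
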