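import Mathlib
import Pool.Agent.RFC.Targets2
import Pool.Agent.RFC.WC

set_option autoImplicit false
set_option linter.unusedSectionVars false
set_option linter.unusedVariables false

/-!
# WC2: Weil numbers, with the structure of the exceptional Tate weights
-/

namespace Pool.Agent.RFC

open Polynomial Finset NumberField
open Pool.Agent.CMT (QBar IsCMType TateByDivisors cc cc_cc idx mem_idx)
open Pool.Agent.CMTP (HG toPerm toPerm_apply cc_ne hg_cc transitive)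
open Pool.Agent.AWP (poly IsRealWeil)
open Pool.Agent.FQW (Lg Lg_mul Lg_div Lg_prod Lg_pow Lg_eq Lg_eq_zero Lg_map VQ)
open scoped BigOperators

namespace WC2_

open WC_

variable {K : Type} [Field K] [NumberField K] [IsCMField K] {q : ℕ} {π : K}

theorem ncard_idx {n : ℕ} (Δ : Finset ((K →+* QBar) × Fin n)) (φ : K →+* QBar) :
    {j : Fin n | (φ, j) ∈ Δ}.ncard = (idx Δ φ).card := by
  classical
  rw [← Set.ncard_coe_finset]
  congr 1
  ext j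
  rw [Finset.mem_coe, mem_idx]
  rfl

/-- a pair of conjugate eigenlines is a Tate weight of codimension one -/
theorem pair_weight (hπ : IsWeil q π) {n : ℕ} (φ : K →+* QBar)
    (j l : Fin n) (B : Finset ((K →+* QBar) × Fin n))
    (hB : ∀ p, p ∈ B ↔ p = (φ, j) ∨ p = (cc φ, l)) : WTateWeight q π 1 B := by
  classical
  have hB' : B = {(φ, j), (cc φ, l)} := by
    ext p
    rw [hB]
    simp
  have hne : ((φ, j) : (K →+* QBar) × Fin n) ≠ (cc φ, l) := by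
    intro h
    exact cc_ne φ (congrArg Prod.fst h).symm
  refine ⟨by rw [hB', Finset.card_pair hne], 1, one_pos, ?_⟩
  rw [hB', Finset.prod_pair hne, pow_one, mul_one, pow_one]
  exact mul_cc hπ φ

/-- sections over a set of embeddings which is given by the value at `δ` are Weil weights -/
theorem section_weil {n : ℕ} (C : Finset (K →+* QBar)) (hCne : C.Nonempty) {δ : K} {s₀ : QBar}
    (hCs : ∀ φ, φ ∈ C ↔ φ δ = s₀) (B : Finset ((K →+* QBar) × Fin n))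
    (f : (K →+* QBar) → Fin n) (hB : ∀ y, y ∈ B ↔ y.1 ∈ C ∧ y.2 = f y.1) : WeilWeight δ B := by
  obtain ⟨φ₀, hφ₀⟩ := hCne
  refine ⟨φ₀, f, fun x => ?_⟩
  rw [hB, hCs, (hCs φ₀).1 hφ₀]

/-- the decomposition into pairs and Weil weights, one sign -/
theorem decomp1 (hS : T_SPLIT) (hπ : IsWeil q π) {n : ℕ} (C : Finset (K →+* QBar))
    (hCne : C.Nonempty) (hC : ∀ φ, φ ∈ C ↔ cc φ ∉ C) {δ : K} {s₀ : QBar}
    (hCs : ∀ φ, φ ∈ C ↔ φ δ = s₀) (t : ℕ) (Δ : Finset ((K →+* QBar) × Fin n))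
    (h : ∀ φ ∈ C, (idx Δ φ).card = (idx Δ (cc φ)).card + t) :
    ∃ D : Finset (Finset ((K →+* QBar) × Fin n)),
      (D : Set (Finset ((K →+* QBar) × Fin n))).PairwiseDisjoint id ∧
      (∀ x, x ∈ Δ ↔ ∃ B ∈ D, x ∈ B) ∧ ∀ B ∈ D, WTateWeight q π 1 B ∨ WeilWeight δ B := by
  classical
  obtain ⟨D, hD1, hD2, hD3⟩ := hS (K →+* QBar) cc C n t Δ cc_cc hC
    (fun φ hφ => by rw [ncard_idx, ncard_idx]; exact h φ hφ)
  refine ⟨D, hD1, hD2, fun B hB => ?_⟩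
  rcases hD3 B hB with ⟨φ, j, l, hB'⟩ | ⟨f, hB'⟩
  · exact Or.inl (pair_weight hπ φ j l B hB')
  · exact Or.inr (section_weil C hCne hCs B f hB')

/-- the decomposition into pairs and Weil weights -/
theorem decomp (hS : T_SPLIT) (hπ : IsWeil q π) {n : ℕ} (C : Finset (K →+* QBar))
    (hC : ∀ φ, φ ∈ C ↔ cc φ ∉ C) {δ : K} {r : ℚ} (hr : 0 < r)
    (hδ : δ ^ 2 = -(r : K)) {s₀ : QBar} (hs₀ : s₀ ^ 2 = -(r : QBar))
    (hCs : ∀ φ, φ ∈ C ↔ φ δ = s₀) (t : ℤ) (Δ : Finset ((K →+* QBar) × Fin n))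
    (h : ∀ φ, (φ ∈ C → (((idx Δ φ).card : ℤ) - ((idx Δ (cc φ)).card : ℤ)) = t) ∧
      (φ ∉ C → (((idx Δ φ).card : ℤ) - ((idx Δ (cc φ)).card : ℤ)) = -t)) :
    ∃ D : Finset (Finset ((K →+* QBar) × Fin n)),
      (D : Set (Finset ((K →+* QBar) × Fin n))).PairwiseDisjoint id ∧
      (∀ x, x ∈ Δ ↔ ∃ B ∈ D, x ∈ B) ∧ ∀ B ∈ D, WTateWeight q π 1 B ∨ WeilWeight δ B := by
  classical
  have hne : ∃ φ : K →+* QBar, φ ∈ C := by
    let φ0 : K →+* QBar := ((IsAlgClosed.lift : K →ₐ[ℚ] QBar) : K →+* QBar)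
    by_cases h0 : φ0 ∈ C
    · exact ⟨φ0, h0⟩
    · refine ⟨cc φ0, ?_⟩
      by_contra h1
      exact h0 ((hC φ0).2 h1)
  obtain ⟨φ₁, hφ₁⟩ := hne
  rcases le_or_gt 0 t with ht | ht
  · obtain ⟨k, rfl⟩ := Int.eq_ofNat_of_zero_le ht
    refine decomp1 hS hπ C ⟨φ₁, hφ₁⟩ hC hCs k Δ fun φ hφ => ?_
    have h1 := (h φ).1 hφ
    omega
  · obtain ⟨k, hk⟩ := Int.eq_ofNat_of_zero_le (show (0 : ℤ) ≤ -t by omega)
    refine decomp1 hS hπ (univ.filter (fun φ => φ ∉ C)) ⟨cc φ₁, ?_⟩ ?_ (s₀ := -s₀) ?_ k Δ ?_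
    · exact Finset.mem_filter.2 ⟨Finset.mem_univ _, (hC φ₁).1 hφ₁⟩
    · intro φ
      rw [Finset.mem_filter, Finset.mem_filter]
      have h1 := hC φ
      simp only [Finset.mem_univ, true_and]
      tauto
    · intro φ
      rw [Finset.mem_filter, not_mem_iff C hr hδ hs₀ hCs]
      simp
    · intro φ hφ
      have h1 := (h φ).2 (Finset.mem_filter.1 hφ).2
      omega

end WC2_

open WC_ WC2_ in
theorem tWC2 : T_EMB → T_QUAD → T_ABS2 → T_SPLIT → T_LOW → T_WC2 := by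
  classical
  intro hE hQ hA hS hL g b hb hreal K _ _ _ hfin hβ q π hq hπ
  obtain ⟨hirr, p, hp, hp3, hgp, _, hcyc⟩ := hb
  obtain ⟨τ, ρ, hρ, hρcc, hτρ, hτ⟩ := hE g p hp hp3 hgp b hirr hreal hcyc K hfin hβ
  have h0 := ne_zero hq hπ
  have hne : ∀ φ : K →+* QBar, φ π ≠ 0 := fun φ => (map_ne_zero φ).mpr h0
  have hasym : ∀ (n : ℕ) (Δ : Finset ((K →+* QBar) × Fin n)) (φ : K →+* QBar),
      ((idx Δ (cc φ)).card : ℤ) - ((idx Δ (cc (cc φ))).card : ℤ) =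
        -(((idx Δ φ).card : ℤ) - ((idx Δ (cc φ)).card : ℤ)) := by
    intro n Δ φ
    rw [cc_cc]
    ring
  have hmain := hA (K →+* QBar) cc (HG K) VQ (fun φ => Lg (φ π)) (Lg (q : QBar)) p g
    (toPerm K τ) ρ (by rw [Embeddings.card K QBar, hfin]) hp hp3 hgp cc_cc cc_ne
    (fun s hs φ => (hg_cc s hs φ).symm) (transitive K) ⟨τ, rfl⟩ hρ hρcc hτρ hτ
    (Lg_cc hq hπ) (by
      rintro _ ⟨σ, rfl⟩ φ ψ h
      exact Lg_map σ (hne φ) (hne ψ) h)
  have hdiv : WTateByDivisors q π → (WTateByDivisors q π ∨ WWeilType q π) ∧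
      ∀ (n i : ℕ) (Δ : Finset ((K →+* QBar) × Fin n)), 2 * i < g → WTateWeight q π i Δ →
        WDivisorial q π Δ := fun h => ⟨Or.inl h, fun n i Δ _ hΔ => h n i Δ hΔ⟩
  rcases hmain with h | h | ⟨C, hC, hG, h | ⟨hrel, hcl⟩⟩
  · refine hdiv fun n i Δ hΔ => of_idx hπ Δ fun φ => ?_
    have h1 := h (fun φ => ((idx Δ φ).card : ℤ) - ((idx Δ (cc φ)).card : ℤ)) (hasym n Δ)
      (fun s hs => rel hq hπ Δ hΔ s hs) φ
    omega
  · exact hdiv (case1 hq hπ h)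
  · exact hdiv (case2 hq hπ C hC h)
  · obtain ⟨δ, r, hr, hδ, s₀, hs₀, hCs⟩ := hQ K C hC hG
    have hdec : ∀ (n i : ℕ) (Δ : Finset ((K →+* QBar) × Fin n)), WTateWeight q π i Δ →
        ∃ D : Finset (Finset ((K →+* QBar) × Fin n)),
          (D : Set (Finset ((K →+* QBar) × Fin n))).PairwiseDisjoint id ∧
          (∀ x, x ∈ Δ ↔ ∃ B ∈ D, x ∈ B) ∧ ∀ B ∈ D, WTateWeight q π 1 B ∨ WeilWeight δ B := by
      intro n i Δ hΔ
      obtain ⟨t, ht⟩ := hcl (fun φ => ((idx Δ φ).card : ℤ) - ((idx Δ (cc φ)).card : ℤ))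
        (hasym n Δ) (fun s hs => rel hq hπ Δ hΔ s hs)
      refine decomp hS hπ C hC hr hδ hs₀ hCs t Δ fun φ => ⟨fun h => ?_, fun h => ?_⟩
      · rw [ht φ, if_pos h]
      · rw [ht φ, if_neg h]
    refine ⟨Or.inr ⟨δ, r, hr, hδ, ?_, hdec⟩, ?_⟩
    · refine case3core hq hπ C hC hr hδ hs₀ hCs (fun φ => if φ ∈ C then (1 : ℤ) else -1)
        (hrel 1 (one_mem _)) 1 one_ne_zero ?_
      intro φ
      refine ⟨fun h => ?_, fun h => ?_⟩
      · simp only [if_pos h]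
      · simp only [if_neg h]
    · intro n i Δ hi hΔ
      obtain ⟨D, hD1, hD2, hD3⟩ := hdec n i Δ hΔ
      refine ⟨D, hD1, hD2, fun B hB => ?_⟩
      rcases hD3 B hB with h | h
      · exact h
      · exact absurd h (hL K g n i δ r D Δ hfin hr hδ hi hΔ.1 hD2 B hB)

end Pool.Agent.RFC
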