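import Mathlib
import Pool.Agent.RFC.Targets
import Pool.Agent.FQW.LogV

set_option autoImplicit false

/-!
# ABS: the classification of the submodules of the odd part
-/

namespace Pool.Agent.RFC

open Finset
open scoped BigOperators

namespace ABS_

variable {X : Type} [Fintype X] [DecidableEq X]

/-- powers of the cycle -/
theorem powers (ι : X → X) (G : Subgroup (Equiv.Perm X)) (p : ℕ) (τ : Equiv.Perm X)
    (ρ : ZMod p → X) (hτ : τ ∈ G) (hτρ : ∀ k, τ (ρ k) = ρ (k + 1))
    (hfix : ∀ x, (∀ k, x ≠ ρ k ∧ x ≠ ι (ρ k)) → τ x = x) (j : ℕ) :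
    ∃ s ∈ G, (∀ k, s (ρ k) = ρ (k + j)) ∧ ∀ x, (∀ k, x ≠ ρ k ∧ x ≠ ι (ρ k)) → s x = x := by
  induction j with
  | zero => exact ⟨1, G.one_mem, fun k => by simp, fun x _ => rfl⟩
  | succ j ih =>
    obtain ⟨s, hs, h1, h2⟩ := ih
    refine ⟨τ * s, G.mul_mem hτ hs, fun k => ?_, fun x hx => ?_⟩
    · rw [Equiv.Perm.mul_apply, h1, hτρ]
      push_cast
      rw [add_assoc]
    · rw [Equiv.Perm.mul_apply, h2 x hx, hfix x hx]

/-- relations which are not constant on the cycle -/
theorem diff_zero (ι : X → X) (G : Subgroup (Equiv.Perm X)) (W : Type) [AddCommGroup W]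
    [Module ℚ W] (L : X → W) (c : W) (p : ℕ) [hp : Fact p.Prime] (τ : Equiv.Perm X)
    (ρ : ZMod p → X) (e : X → ℤ) (hιι : ∀ x, ι (ι x) = x)
    (hcomm : ∀ s ∈ G, ∀ x, s (ι x) = ι (s x)) (hτ : τ ∈ G) (hinj : Function.Injective ρ)
    (hkl : ∀ k l, ρ k ≠ ι (ρ l)) (hτρ : ∀ k, τ (ρ k) = ρ (k + 1))
    (hfix : ∀ x, (∀ k, x ≠ ρ k ∧ x ≠ ι (ρ k)) → τ x = x) (hL : ∀ x, L (ι x) = c - L x)
    (he : ∀ x, e (ι x) = -e x) (hrel : ∀ s ∈ G, ∑ x, e x • L (s x) = 0)
    (hne : ∃ k, e (ρ k) ≠ e (ρ 0)) : ∀ k, L (ρ k) = L (ρ 0) := by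
  set y : ZMod p → W := fun k => L (ρ k) - L (ι (ρ k)) with hy
  set z : ZMod p → W := fun k => y k - y (k + 1) with hz
  have hz0 : ∑ k, z k = 0 := by
    rw [hz, Finset.sum_sub_distrib]
    rw [Fintype.sum_equiv (Equiv.addRight (1 : ZMod p)) (fun k => y (k + 1)) y (fun k => rfl),
      sub_self]
  set R1 : Finset X := univ.image ρ with hR1
  set R2 : Finset X := univ.image (fun k => ι (ρ k)) with hR2
  have hdisj : Disjoint R1 R2 := by
    rw [Finset.disjoint_left]
    intro x h1 h2
    obtain ⟨k, _, rfl⟩ := mem_image.mp h1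
    obtain ⟨l, _, hl⟩ := mem_image.mp h2
    exact hkl k l hl.symm
  have hιinj : Function.Injective ι := fun a b h => by rw [← hιι a, h, hιι]
  have hr : ∀ j : ZMod p, ∑ k, e (ρ k) • z (k + j) = 0 := by
    intro j
    obtain ⟨s, hs, hs1, hs2⟩ := powers ι G p τ ρ hτ hτρ hfix j.val
    obtain ⟨t, ht, ht1, ht2⟩ := powers ι G p τ ρ hτ hτρ hfix (j.val + 1)
    have h1 := hrel s hs
    have h2 := hrel t ht
    have h3 : ∑ x, e x • (L (s x) - L (t x)) = 0 := by
      simp only [smul_sub, Finset.sum_sub_distrib, h1, h2, sub_self]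
    have h4 : ∑ x, e x • (L (s x) - L (t x)) = ∑ x ∈ R1 ∪ R2, e x • (L (s x) - L (t x)) := by
      symm
      apply Finset.sum_subset (subset_univ _)
      intro x _ hx2
      have hk : ∀ k, x ≠ ρ k ∧ x ≠ ι (ρ k) := by
        intro k
        refine ⟨?_, ?_⟩
        · rintro rfl
          exact hx2 (mem_union_left _ (mem_image_of_mem _ (mem_univ k)))
        · rintro rfl
          exact hx2 (mem_union_right _ (mem_image.mpr ⟨k, mem_univ k, rfl⟩))
      rw [hs2 x hk, ht2 x hk, sub_self, smul_zero]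
    rw [h4, Finset.sum_union hdisj, hR1, hR2, Finset.sum_image (fun x _ y _ h => hinj h),
      Finset.sum_image (fun x _ y _ h => hinj (hιinj h))] at h3
    rw [← h3, ← Finset.sum_add_distrib]
    refine Finset.sum_congr rfl fun k _ => ?_
    rw [he (ρ k), hcomm s hs, hcomm t ht, hs1, ht1]
    have e1 : k + ((j.val : ℕ) : ZMod p) = k + j := by rw [ZMod.natCast_zmod_val]
    have e2 : k + ((j.val + 1 : ℕ) : ZMod p) = k + j + 1 := by
      push_cast
      rw [ZMod.natCast_zmod_val, add_assoc]
    rw [e1, e2, hz, hy]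
    simp only [neg_smul, smul_sub]
    abel
  have hzz := Pool.Agent.FQW.shift_zero p W z (fun k => e (ρ k)) hz0 hr hne
  have hstep : ∀ k, y (k + 1) = y k := by
    intro k
    have := congrFun hzz k
    simp only [hz, Pi.zero_apply, sub_eq_zero] at this
    exact this.symm
  have hall : ∀ n : ℕ, y (n : ZMod p) = y 0 := by
    intro n
    induction n with
    | zero => simp
    | succ n ih => push_cast; rw [hstep, ih]
  intro k
  have h1 : y k = y 0 := by
    have := hall k.val
    rwa [ZMod.natCast_zmod_val] at this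
  simp only [hy, hL] at h1
  have h2 : (2 : ℚ) • L (ρ k) = (2 : ℚ) • L (ρ 0) := by
    rw [two_smul, two_smul]
    have h3 : L (ρ k) + L (ρ k) = (L (ρ k) - (c - L (ρ k))) + c := by abel
    rw [h3, h1]
    abel
  exact smul_right_injective W (two_ne_zero : (2 : ℚ) ≠ 0) h2

/-- case A -/
theorem caseA (ι : X → X) (G : Subgroup (Equiv.Perm X)) (W : Type) [AddCommGroup W]
    [Module ℚ W] (L : X → W) (c : W) (p g : ℕ) [hp : Fact p.Prime]
    (ρ : ZMod p → X) (hcard : Fintype.card X = 2 * g) (hg : g < 2 * p)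
    (hιι : ∀ x, ι (ι x) = x) (hcomm : ∀ s ∈ G, ∀ x, s (ι x) = ι (s x))
    (htr : ∀ x y, ∃ s ∈ G, s x = y) (hinj : Function.Injective ρ)
    (hL : ∀ x, L (ι x) = c - L x)
    (hinv : ∀ s ∈ G, ∀ x y, L x = L y → L (s x) = L (s y)) (hconst : ∀ k, L (ρ k) = L (ρ 0)) :
    (∀ x, L x = L (ι x)) ∨ ∃ C : Finset X, (∀ x, x ∈ C ↔ ι x ∉ C) ∧
      (∀ s ∈ G, (∀ x, s x ∈ C ↔ x ∈ C) ∨ ∀ x, s x ∈ C ↔ x ∉ C) ∧
      (∀ x ∈ C, ∀ y ∈ C, L x = L y) := by
  classical
  by_cases h1 : ∃ x, L x = L (ι x)
  · left
    obtain ⟨x, hx⟩ := h1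
    intro y
    obtain ⟨s, hs, rfl⟩ := htr x y
    rw [← hcomm s hs]
    exact hinv s hs _ _ hx
  right
  push Not at h1
  have hcardp : Fintype.card (ZMod p) = p := ZMod.card p
  have hιinj : Function.Injective ι := fun a b h => by rw [← hιι a, h, hιι]
  have h0 := h1 (ρ 0)
  rw [hL] at h0
  have htwo : ∀ x, L x = L (ρ 0) ∨ L x = c - L (ρ 0) := by
    intro x
    by_contra hcon
    push Not at hcon
    obtain ⟨hb1, hb2⟩ := hcon
    obtain ⟨s, hs, hsx⟩ := htr (ρ 0) x
    have hsL : ∀ k, L (s (ρ k)) = L x := by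
      intro k
      rw [← hsx]
      exact hinv s hs _ _ (hconst k)
    set A1 : Finset X := univ.image ρ
    set A2 : Finset X := univ.image (fun k => ι (ρ k))
    set A3 : Finset X := univ.image (fun k => s (ρ k))
    set A4 : Finset X := univ.image (fun k => ι (s (ρ k)))
    have c1 : A1.card = p := by
      rw [card_image_of_injective _ hinj, card_univ, hcardp]
    have c2 : A2.card = p := by
      rw [card_image_of_injective _ (fun x y h => hinj (hιinj h)), card_univ, hcardp]
    have c3 : A3.card = p := by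
      rw [card_image_of_injective _ (fun x y h => hinj (s.injective h)), card_univ, hcardp]
    have c4 : A4.card = p := by
      rw [card_image_of_injective _ (fun x y h => hinj (s.injective (hιinj h))), card_univ,
        hcardp]
    have v1 : ∀ x ∈ A1, L x = L (ρ 0) := by
      intro x hx
      obtain ⟨k, _, rfl⟩ := mem_image.mp hx
      exact hconst k
    have v2 : ∀ x ∈ A2, L x = c - L (ρ 0) := by
      intro x hx
      obtain ⟨k, _, rfl⟩ := mem_image.mp hx
      rw [hL, hconst]
    have v3 : ∀ y ∈ A3, L y = L x := by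
      intro y hy
      obtain ⟨k, _, rfl⟩ := mem_image.mp hy
      exact hsL k
    have v4 : ∀ y ∈ A4, L y = c - L x := by
      intro y hy
      obtain ⟨k, _, rfl⟩ := mem_image.mp hy
      rw [hL, hsL]
    have hbb := h1 x
    rw [hL] at hbb
    have n14 : L (ρ 0) ≠ c - L x := by
      intro h
      apply hb2
      rw [h]; abel
    have n24 : c - L (ρ 0) ≠ c - L x := by
      intro h
      exact hb1 (sub_right_injective h).symm
    have d12 : Disjoint A1 A2 := Finset.disjoint_left.mpr fun x hx hy =>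
      h0 ((v1 x hx).symm.trans (v2 x hy))
    have d13 : Disjoint (A1 ∪ A2) A3 := by
      rw [Finset.disjoint_left]
      intro y hx hy
      rcases mem_union.mp hx with hx | hx
      · exact hb1 ((v3 y hy).symm.trans (v1 y hx))
      · exact hb2 ((v3 y hy).symm.trans (v2 y hx))
    have d14 : Disjoint (A1 ∪ A2 ∪ A3) A4 := by
      rw [Finset.disjoint_left]
      intro y hx hy
      rcases mem_union.mp hx with hx | hx
      · rcases mem_union.mp hx with hx | hx
        · exact n14 ((v1 y hx).symm.trans (v4 y hy))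
        · exact n24 ((v2 y hx).symm.trans (v4 y hy))
      · exact hbb ((v3 y hx).symm.trans (v4 y hy))
    have h5 := card_le_univ (A1 ∪ A2 ∪ A3 ∪ A4)
    rw [card_union_of_disjoint d14, card_union_of_disjoint d13, card_union_of_disjoint d12,
      c1, c2, c3, c4, hcard] at h5
    omega
  have hmem : ∀ x, x ∈ univ.filter (fun x => L x = L (ρ 0)) ↔ L x = L (ρ 0) := by simp
  have hnot : ∀ x, L x ≠ L (ρ 0) ↔ L (ι x) = L (ρ 0) := by
    intro x
    constructor
    · intro h
      have h2 := (htwo x).resolve_left h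
      rw [hL, h2]
      abel
    · intro h h2
      rw [hL, h2] at h
      exact h0 h.symm
  refine ⟨univ.filter (fun x => L x = L (ρ 0)), fun x => ?_, fun s hs => ?_, fun x hx y hy => ?_⟩
  · rw [hmem, hmem]
    rw [← not_iff_not, not_not]
    exact hnot x
  · have key : ∀ x, L x = L (ρ 0) → L (s x) = L (s (ρ 0)) := fun x hx => hinv s hs _ _ hx
    rcases htwo (s (ρ 0)) with h2 | h2
    · left
      intro x
      rw [hmem, hmem]
      constructor
      · intro h3
        by_contra h4
        have h5 := key _ ((hnot x).mp h4)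
        rw [hcomm s hs, hL, h2, h3] at h5
        apply h0
        rw [h5]
      · intro h3
        rw [key x h3, h2]
    · right
      intro x
      rw [hmem, hmem]
      constructor
      · intro h3 h4
        rw [key x h4, h2] at h3
        exact h0 h3.symm
      · intro h3
        have h5 := key _ ((hnot x).mp h3)
        rw [hcomm s hs, hL, h2] at h5
        exact sub_right_injective h5
  · rw [(hmem x).mp hx, (hmem y).mp hy]

end ABS_

open ABS_ in
theorem tABS : T_ABS := by
  intro X _ _ ι G W _ _ L c p g τ ρ e hcard hp hp3 hg hιι hι hcomm htr hτ hinj hkl hτρ hfix hL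
    hinv he hrel hne
  classical
  have : Fact p.Prime := ⟨hp⟩
  by_cases hA : ∃ e' : X → ℤ, (∀ x, e' (ι x) = -e' x) ∧ (∀ s ∈ G, ∑ x, e' x • L (s x) = 0) ∧
      ∃ k, e' (ρ k) ≠ e' (ρ 0)
  · obtain ⟨e', he', hrel', hne'⟩ := hA
    have hconst := diff_zero ι G W L c p τ ρ e' hιι hcomm hτ hinj hkl hτρ hfix hL he' hrel' hne'
    rcases caseA ι G W L c p g ρ hcard hg hιι hcomm htr hinj hL hinv hconst with h | ⟨C, h1, h2, h3⟩
    · exact Or.inl h
    · exact Or.inr ⟨C, h1, h2, Or.inl h3⟩
  · right
    push Not at hA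
    have hιinj : Function.Injective ι := fun a b h => by rw [← hιι a, h, hιι]
    -- closure under composition
    have hcomp : ∀ e' : X → ℤ, (∀ x, e' (ι x) = -e' x) → (∀ s ∈ G, ∑ x, e' x • L (s x) = 0) →
        ∀ s ∈ G, (∀ x, e' (s (ι x)) = -e' (s x)) ∧ ∀ t ∈ G, ∑ x, e' (s x) • L (t x) = 0 := by
      intro e' h1 h2 s hs
      refine ⟨fun x => by rw [hcomm s hs, h1], fun t ht => ?_⟩
      have h3 := h2 (t * s⁻¹) (G.mul_mem ht (G.inv_mem hs))
      rw [← h3]
      refine Fintype.sum_equiv s _ _ (fun x => ?_)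
      have h5 : (t * s⁻¹) (s x) = t x := by
        rw [Equiv.Perm.mul_apply, ← Equiv.Perm.mul_apply s⁻¹ s, inv_mul_cancel,
          Equiv.Perm.one_apply]
      rw [h5]
    have hconst : ∀ e' : X → ℤ, (∀ x, e' (ι x) = -e' x) → (∀ s ∈ G, ∑ x, e' x • L (s x) = 0) →
        ∀ s ∈ G, ∀ k, e' (s (ρ k)) = e' (s (ρ 0)) := by
      intro e' h1 h2 s hs k
      obtain ⟨h3, h4⟩ := hcomp e' h1 h2 s hs
      exact hA (fun x => e' (s x)) h3 h4 k
    -- the absolute value is constant
    have habs : ∀ e' : X → ℤ, (∀ x, e' (ι x) = -e' x) → (∀ s ∈ G, ∑ x, e' x • L (s x) = 0) →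
        ∀ x y, |e' x| = |e' y| := by
      intro e' h1 h2 x y
      obtain ⟨s, hs, rfl⟩ := htr (ρ 0) x
      obtain ⟨t, ht, rfl⟩ := htr (ρ 0) y
      have hcardp : Fintype.card (ZMod p) = p := ZMod.card p
      have hA' : ∀ u ∈ G, ∃ A : Finset X, A.card = 2 * p ∧ ∀ z ∈ A, |e' z| = |e' (u (ρ 0))| := by
        intro u hu
        refine ⟨univ.image (fun k => u (ρ k)) ∪ univ.image (fun k => u (ι (ρ k))), ?_, ?_⟩
        · rw [card_union_of_disjoint, card_image_of_injective _
            (fun x y h => hinj (u.injective h)), card_image_of_injective _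
            (fun x y h => hinj (hιinj (u.injective h))), card_univ, hcardp]
          · ring
          · rw [Finset.disjoint_left]
            intro z hz1 hz2
            obtain ⟨k, _, rfl⟩ := mem_image.mp hz1
            obtain ⟨l, _, hl⟩ := mem_image.mp hz2
            exact hkl k l (u.injective hl).symm
        · intro z hz
          rcases mem_union.mp hz with hz | hz
          · obtain ⟨k, _, rfl⟩ := mem_image.mp hz
            rw [hconst e' h1 h2 u hu k]
          · obtain ⟨k, _, rfl⟩ := mem_image.mp hz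
            rw [hcomm u hu, h1, hconst e' h1 h2 u hu k, abs_neg]
      obtain ⟨A, hA1, hA2⟩ := hA' s hs
      obtain ⟨B, hB1, hB2⟩ := hA' t ht
      have hAB : ¬ Disjoint A B := by
        intro hd
        have h5 := card_le_univ (A ∪ B)
        rw [card_union_of_disjoint hd, hA1, hB1, hcard] at h5
        omega
      rw [Finset.not_disjoint_iff] at hAB
      obtain ⟨z, hzA, hzB⟩ := hAB
      rw [← hA2 z hzA, ← hB2 z hzB]
    obtain ⟨x0, hx0⟩ := hne
    set m : ℤ := |e x0| with hm
    have hm0 : 0 < m := abs_pos.mpr hx0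
    have hval : ∀ x, e x = m ∨ e x = -m := by
      intro x
      have := habs e he hrel x x0
      rw [← hm] at this
      exact eq_or_eq_neg_of_abs_eq this
    refine ⟨univ.filter (fun x => e x = m), fun x => ?_, fun s hs => ?_, Or.inr ⟨m, hm0.ne', ?_⟩⟩
    · simp only [mem_filter, mem_univ, true_and, he]
      rcases hval x with h | h <;> rw [h] <;> omega
    · obtain ⟨h3, h4⟩ := hcomp e he hrel s hs
      have h5 := habs (fun x => e x + e (s x)) (fun x => by
        show e (ι x) + e (s (ι x)) = -(e x + e (s x))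
        rw [he, h3]; ring) (fun t ht => by
        simp only [add_smul, Finset.sum_add_distrib, hrel t ht, h4 t ht, add_zero])
      simp only [mem_filter, mem_univ, true_and]
      by_cases h6 : e x0 + e (s x0) = 0
      · right
        intro x
        have h7 := h5 x x0
        simp only [h6, abs_zero, abs_eq_zero] at h7
        rcases hval x with h | h <;> rcases hval (s x) with h' | h' <;> rw [h, h'] at h7 ⊢ <;>
          omega
      · left
        intro x
        have h7 := h5 x x0
        have h8 : e x + e (s x) ≠ 0 := by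
          intro h9
          simp only [h9, abs_zero] at h7
          exact h6 (abs_eq_zero.mp h7.symm)
        rcases hval x with h | h <;> rcases hval (s x) with h' | h' <;> rw [h, h'] at h8 ⊢ <;>
          omega
    · intro x
      simp only [mem_filter, mem_univ, true_and]
      rcases hval x with h | h
      · rw [h, if_pos rfl]
      · rw [h, if_neg (by omega)]

end Pool.Agent.RFC
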