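import Mathlib
import Pool.Agent.RFC.Targets

set_option autoImplicit false

/-!
# CMC: CM types (assembly)
-/

namespace Pool.Agent.RFC

open Polynomial Finset NumberField
open Pool.Agent.CMT (QBar IsCMType TateByDivisors cc cc_cc)
open Pool.Agent.CMTP (HG toPerm NDeg hg_cc cc_ne transitive tateByDivisors_of_ndeg)
open Pool.Agent.AWP (poly IsRealWeil)
open scoped BigOperators

namespace CMC_

variable {K : Type} [Field K] [NumberField K] [IsCMField K]

open Classical in
/-- the sign of an embedding with respect to a type -/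
noncomputable def sgn (Φ : Finset (K →+* QBar)) (φ : K →+* QBar) : ℚ := if φ ∈ Φ then 1 else -1

/-- the vector of the signs of all translates -/
noncomputable def LL (Φ : Finset (K →+* QBar)) (φ : K →+* QBar) : HG K → ℚ :=
  fun h => sgn Φ ((h : Equiv.Perm (K →+* QBar)) φ)

theorem sgn_cc {Φ : Finset (K →+* QBar)} (hΦ : IsCMType K Φ) (φ : K →+* QBar) :
    sgn Φ (cc φ) = -sgn Φ φ := by
  have h : φ ∈ Φ ↔ cc φ ∉ Φ := hΦ φ
  unfold sgn
  by_cases h1 : φ ∈ Φ
  · rw [if_neg (h.1 h1), if_pos h1]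
  · have h2 : cc φ ∈ Φ := by
      by_contra h3
      exact h1 (h.2 h3)
    rw [if_pos h2, if_neg h1]
    norm_num

theorem LL_cc {Φ : Finset (K →+* QBar)} (hΦ : IsCMType K Φ) (φ : K →+* QBar) :
    LL Φ (cc φ) = 0 - LL Φ φ := by
  funext h
  show sgn Φ ((h : Equiv.Perm (K →+* QBar)) (cc φ)) = 0 - sgn Φ ((h : Equiv.Perm (K →+* QBar)) φ)
  rw [← hg_cc h.1 h.2, sgn_cc hΦ]
  ring

theorem sum_odd (f : (K →+* QBar) → ℤ) (hodd : ∀ φ, f (cc φ) = -f φ) : ∑ φ, f φ = 0 := by
  have h1 : ∑ φ : K →+* QBar, f (cc φ) = ∑ φ, f φ :=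
    Fintype.sum_equiv ⟨cc, cc, cc_cc, cc_cc⟩ _ _ fun _ => rfl
  have h2 : ∑ φ : K →+* QBar, f (cc φ) = -∑ φ, f φ := by
    rw [← Finset.sum_neg_distrib]
    exact Finset.sum_congr rfl fun φ _ => hodd φ
  linarith

theorem sum_rel (Φ : Finset (K →+* QBar)) (f : (K →+* QBar) → ℤ)
    (hodd : ∀ φ, f (cc φ) = -f φ) (hsum : ∀ h ∈ HG K, ∑ φ ∈ Φ, f (h φ) = 0)
    (u : Equiv.Perm (K →+* QBar)) (hu : u ∈ HG K) : ∑ φ, (f φ : ℚ) * sgn Φ (u φ) = 0 := by
  classical
  have h1 : ∑ φ, (f φ : ℚ) * sgn Φ (u φ) = ∑ ψ, (f (u⁻¹ ψ) : ℚ) * sgn Φ ψ := by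
    refine Fintype.sum_equiv u _ _ fun φ => ?_
    simp
  have h2 : ∀ ψ, (f (u⁻¹ ψ) : ℚ) * sgn Φ ψ =
      2 * (if ψ ∈ Φ then (f (u⁻¹ ψ) : ℚ) else 0) - f (u⁻¹ ψ) := by
    intro ψ
    unfold sgn
    by_cases h : ψ ∈ Φ
    · rw [if_pos h, if_pos h]; ring
    · rw [if_neg h, if_neg h]; ring
  have h3 : ∑ ψ, (f (u⁻¹ ψ) : ℚ) = 0 := by
    have h4 : ∑ ψ, f (u⁻¹ ψ) = 0 := by
      rw [← sum_odd f hodd]
      exact Fintype.sum_equiv u⁻¹ _ _ fun _ => rfl
    exact_mod_cast congrArg (Int.cast : ℤ → ℚ) h4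
  have h5 : ∑ ψ ∈ Φ, (f (u⁻¹ ψ) : ℚ) = 0 := by
    exact_mod_cast congrArg (Int.cast : ℤ → ℚ) (hsum u⁻¹ ((HG K).inv_mem hu))
  rw [h1, Finset.sum_congr rfl fun ψ _ => h2 ψ, Finset.sum_sub_distrib, h3, ← Finset.mul_sum,
    Finset.sum_ite_mem, Finset.univ_inter, h5]
  ring

end CMC_

open CMC_ in
theorem tCMC : T_ABS → T_EMB → T_QUAD → T_HALF → T_CMC := by
  classical
  intro hA hE hQ hH g b hL hreal K _ _ _ hfin hβ Φ hΦ
  obtain ⟨hirr, p, hp, hp3, hg2, hpg, hcyc⟩ := hL
  obtain ⟨τ, ρ, hρinj, hρne, hρs, hρfix⟩ := hE g p hp hp3 hg2 b hirr hreal hcyc K hfin hβ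
  by_cases hnd : NDeg (HG K) cc Φ
  · exact Or.inl (tateByDivisors_of_ndeg hΦ hnd)
  unfold NDeg at hnd
  push Not at hnd
  obtain ⟨f, hodd, hsum, hf⟩ := hnd
  have hfx : ∃ x, f x ≠ 0 := Function.ne_iff.1 hf
  have hcard : Fintype.card (K →+* QBar) = 2 * g := by
    rw [← hfin]
    exact Embeddings.card K QBar
  have hmain := hA (K →+* QBar) cc (HG K) (HG K → ℚ) (LL Φ) 0 p g (toPerm K τ) ρ f hcard hp hp3 hg2
    cc_cc cc_ne (fun s hs x => (hg_cc s hs x).symm) (fun x y => transitive K x y) ⟨τ, rfl⟩ hρinj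
    hρne hρs hρfix (LL_cc hΦ)
    (by
      intro s hs x y hxy
      funext h
      have h1 := congrFun hxy ⟨(h : Equiv.Perm (K →+* QBar)) * s, (HG K).mul_mem h.2 hs⟩
      exact h1)
    hodd
    (by
      intro s hs
      funext h
      rw [Finset.sum_apply]
      have h1 := sum_rel Φ f hodd hsum ((h : Equiv.Perm (K →+* QBar)) * s)
        ((HG K).mul_mem h.2 hs)
      rw [Pi.zero_apply, ← h1]
      refine Finset.sum_congr rfl fun φ _ => ?_
      rw [Pi.smul_apply, zsmul_eq_mul]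
      rfl)
    hfx
  rcases hmain with h | ⟨C, hC, hG, h⟩
  · -- impossible
    exfalso
    obtain ⟨x, _⟩ := hfx
    have h1 := congrFun (h x) 1
    have h2 := congrFun (LL_cc hΦ x) 1
    rw [← h1] at h2
    have h3 : LL Φ x 1 = sgn Φ x := rfl
    rw [Pi.sub_apply, h3] at h2
    have h4 : sgn Φ x = 0 := by
      simp only [Pi.zero_apply] at h2
      linarith
    unfold sgn at h4
    split_ifs at h4 <;> norm_num at h4
  · have hC0 : ∀ φ, φ ∈ C ∨ cc φ ∈ C := by
      intro φ
      by_cases h1 : φ ∈ C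
      · exact Or.inl h1
      · right
        by_contra h2
        exact h1 ((hC φ).2 h2)
    have hΦ' : ∀ φ, φ ∈ Φ ↔ cc φ ∉ Φ := hΦ
    rcases h with h | ⟨m, hm, hfm⟩
    · -- the type is `C` or its complement
      left
      refine hH K Φ hΦ' ?_
      have hcase : (∀ φ, φ ∈ Φ ↔ φ ∈ C) ∨ (∀ φ, φ ∈ Φ ↔ φ ∉ C) := by
        have hs : ∀ x ∈ C, ∀ y ∈ C, (x ∈ Φ ↔ y ∈ Φ) := by
          intro x hx y hy
          have h1 : sgn Φ x = sgn Φ y := congrFun (h x hx y hy) 1
          unfold sgn at h1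
          by_cases hx' : x ∈ Φ <;> by_cases hy' : y ∈ Φ
          · simp [hx', hy']
          · rw [if_pos hx', if_neg hy'] at h1; norm_num at h1
          · rw [if_neg hx', if_pos hy'] at h1; norm_num at h1
          · simp [hx', hy']
        obtain ⟨x₀, _⟩ := hfx
        have hne : ∃ x₁, x₁ ∈ C := by
          rcases hC0 x₀ with h1 | h1
          · exact ⟨_, h1⟩
          · exact ⟨_, h1⟩
        obtain ⟨x₁, hx₁⟩ := hne
        by_cases hx₁Φ : x₁ ∈ Φ
        · left
          have hsub : ∀ φ ∈ C, φ ∈ Φ := fun φ hφ => (hs x₁ hx₁ φ hφ).1 hx₁Φ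
          intro φ
          refine ⟨fun h1 => ?_, hsub φ⟩
          rcases hC0 φ with h2 | h2
          · exact h2
          · exact absurd (hsub _ h2) ((hΦ' φ).1 h1)
        · right
          have hsub : ∀ φ ∈ C, φ ∉ Φ := fun φ hφ h1 => hx₁Φ ((hs x₁ hx₁ φ hφ).2 h1)
          intro φ
          refine ⟨fun h1 h2 => hsub φ h2 h1, fun h1 => ?_⟩
          rcases hC0 φ with h2 | h2
          · exact absurd h2 h1
          · exact (hΦ' φ).2 (hsub _ h2)
      intro s hs
      rcases hcase with h1 | h1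
      · rcases hG s hs with h2 | h2
        · left
          intro φ
          rw [h1, h1, h2]
        · right
          intro φ
          rw [h1, h1, h2]
      · rcases hG s hs with h2 | h2
        · left
          intro φ
          rw [h1, h1, h2]
        · right
          intro φ
          rw [h1, h1, h2]
    · -- balanced
      right
      obtain ⟨δ, r, hr, hδ, s₀, hs₀, hCδ⟩ := hQ K C hC hG
      have hsum1 : ∑ φ ∈ Φ, f φ = 0 := hsum 1 (HG K).one_mem
      have hcount : (Φ.filter (fun φ => φ ∈ C)).card = (Φ.filter (fun φ => φ ∉ C)).card := by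
        have h1 : ∑ φ ∈ Φ, f φ = m * (Φ.filter (fun φ => φ ∈ C)).card -
            m * (Φ.filter (fun φ => φ ∉ C)).card := by
          rw [Finset.sum_congr rfl fun φ _ => hfm φ, Finset.sum_ite, Finset.sum_const,
            Finset.sum_const, nsmul_eq_mul, nsmul_eq_mul]
          ring
        rw [hsum1] at h1
        have h2 : m * (((Φ.filter (fun φ => φ ∈ C)).card : ℤ) -
            (Φ.filter (fun φ => φ ∉ C)).card) = 0 := by linarith
        rcases mul_eq_zero.1 h2 with h3 | h3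
        · exact absurd h3 hm
        · exact_mod_cast sub_eq_zero.1 h3
      have htot : (Φ.filter (fun φ => φ ∈ C)).card + (Φ.filter (fun φ => φ ∉ C)).card = Φ.card :=
        Finset.card_filter_add_card_filter_not _
      have hs₀0 : s₀ ≠ -s₀ := by
        intro h1
        have h2 : s₀ = 0 := by
          have h3 : (2 : QBar) * s₀ = 0 := by linear_combination h1
          rcases mul_eq_zero.1 h3 with h4 | h4
          · norm_num at h4
          · exact h4
        rw [h2] at hs₀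
        have h5 : (r : QBar) = 0 := by linear_combination hs₀
        have h6 : r = 0 := by exact_mod_cast h5
        exact hr.ne' h6
      have hφδ : ∀ φ : K →+* QBar, φ δ = s₀ ∨ φ δ = -s₀ := by
        intro φ
        have h1 : (φ δ) ^ 2 = s₀ ^ 2 := by
          rw [← map_pow, hδ, hs₀]
          simp
        exact sq_eq_sq_iff_eq_or_eq_neg.1 h1
      refine ⟨δ, r, hr, hδ, fun s hs => ?_⟩
      have hs' : s = s₀ ∨ s = -s₀ := by
        refine sq_eq_sq_iff_eq_or_eq_neg.1 ?_
        rw [hs, hs₀]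
      rcases hs' with h1 | h1
      · have h2 : {φ : K →+* QBar | φ ∈ Φ ∧ φ δ = s} =
            ((Φ.filter (fun φ => φ ∈ C) : Finset (K →+* QBar)) : Set (K →+* QBar)) := by
          ext φ
          rw [Finset.coe_filter]
          simp only [Set.mem_ofPred_eq]
          rw [h1, hCδ]
        rw [h2, Set.ncard_coe_finset]
        omega
      · have h2 : {φ : K →+* QBar | φ ∈ Φ ∧ φ δ = s} =
            ((Φ.filter (fun φ => φ ∉ C) : Finset (K →+* QBar)) : Set (K →+* QBar)) := by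
          ext φ
          rw [Finset.coe_filter]
          simp only [Set.mem_ofPred_eq]
          rw [h1, hCδ]
          constructor
          · rintro ⟨h3, h4⟩
            exact ⟨h3, fun h5 => hs₀0 (h5.symm.trans h4)⟩
          · rintro ⟨h3, h4⟩
            refine ⟨h3, ?_⟩
            rcases hφδ φ with h5 | h5
            · exact absurd h5 h4
            · exact h5
        rw [h2, Set.ncard_coe_finset]
        omega

end Pool.Agent.RFC
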