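import Mathlib
import Pool.Agent.RFC.Targets2
import Pool.Agent.RFC.CMC

set_option autoImplicit false

/-!
# CMC2: CM types, refined version (assembly)
-/

namespace Pool.Agent.RFC

open Polynomial Finset NumberField
open Pool.Agent.CMT (QBar IsCMType TateByDivisors TateWeight Divisorial cc cc_cc idx mem_idx
  pair_weight)
open Pool.Agent.CMTP (HG toPerm toPerm_apply NDeg hg_cc cc_ne transitive tateByDivisors_of_ndeg
  card_idx)
open Pool.Agent.AWP (poly IsRealWeil)
open scoped BigOperators

namespace CMC2_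

open CMC_

variable {K : Type} [Field K] [NumberField K] [IsCMField K]

/-- the excess of the multiplicities of a Tate weight is a relation -/
theorem excess {Φ : Finset (K →+* QBar)} (hΦ : IsCMType K Φ) {n i : ℕ}
    {Δ : Finset ((K →+* QBar) × Fin n)} (hΔ : TateWeight Φ i Δ) :
    ∀ h ∈ HG K, ∑ φ ∈ Φ, (((idx Δ (h φ)).card : ℤ) - (idx Δ (cc (h φ))).card) = 0 := by
  classical
  obtain ⟨hΔ1, hΔ2⟩ := hΔ
  let m : (K →+* QBar) → ℤ := fun φ => ((idx Δ φ).card : ℤ)
  have htot : ∑ φ, m φ = 2 * i := by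
    have h1 := card_idx Δ Finset.univ
    have h2 : {p : (K →+* QBar) × Fin n | p ∈ Δ ∧ p.1 ∈ (Finset.univ : Finset (K →+* QBar))}.ncard
        = Δ.card := by
      rw [← Set.ncard_coe_finset]
      congr 1
      ext p
      simp
    rw [h2, hΔ1] at h1
    have h3 : ((∑ φ, (idx Δ φ).card : ℕ) : ℤ) = ((2 * i : ℕ) : ℤ) := by rw [h1]
    push_cast at h3
    exact h3
  have hrel : ∀ h ∈ HG K, ∑ φ ∈ Φ, m (h φ) = i := by
    rintro _ ⟨τ, rfl⟩
    have h1 := hΔ2 τ⁻¹
    have h2 : {p : (K →+* QBar) × Fin n | p ∈ Δ ∧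
        ((τ⁻¹ : QBar ≃+* QBar) : QBar →+* QBar).comp p.1 ∈ Φ} =
        {p : (K →+* QBar) × Fin n | p ∈ Δ ∧ p.1 ∈ Φ.image (toPerm K τ)} := by
      ext p
      simp only [Set.mem_ofPred_eq, Finset.mem_image]
      constructor
      · rintro ⟨h3, h4⟩
        refine ⟨h3, _, h4, ?_⟩
        ext x
        rw [toPerm_apply]
        exact τ.apply_symm_apply _
      · rintro ⟨h3, φ, h4, h5⟩
        refine ⟨h3, ?_⟩
        have h6 : ((τ⁻¹ : QBar ≃+* QBar) : QBar →+* QBar).comp p.1 = φ := by
          rw [← h5]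
          ext x
          exact τ.symm_apply_apply _
        rw [h6]
        exact h4
    rw [h2, card_idx] at h1
    rw [Finset.sum_image (fun x _ y _ hxy => (toPerm K τ).injective hxy)] at h1
    have h3 : ((∑ φ ∈ Φ, (idx Δ (toPerm K τ φ)).card : ℕ) : ℤ) = (i : ℤ) := by rw [h1]
    push_cast at h3
    exact h3
  have hcompl : ∀ h ∈ HG K, ∑ φ ∈ Φ, m (cc (h φ)) = i := by
    intro h hh
    have h1 : ∑ φ, m (h φ) = 2 * i := by
      rw [← htot]
      exact Fintype.sum_equiv h _ _ (fun _ => rfl)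
    have h2 : ∑ φ ∈ Φᶜ, m (h φ) = ∑ φ ∈ Φ, m (cc (h φ)) := by
      refine Finset.sum_bij' (fun φ _ => cc φ) (fun φ _ => cc φ) ?_ ?_ ?_ ?_ ?_
      · intro φ hφ
        rw [Finset.mem_compl] at hφ
        by_contra h3
        exact hφ ((hΦ φ).2 h3)
      · intro φ hφ
        rw [Finset.mem_compl]
        exact (hΦ φ).1 hφ
      · intro φ _
        exact cc_cc φ
      · intro φ _
        exact cc_cc φ
      · intro φ _
        rw [← hg_cc h hh, cc_cc]
    have h3 := Finset.sum_add_sum_compl Φ (fun φ => m (h φ))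
    rw [h1, hrel h hh, h2] at h3
    linarith
  intro h hh
  rw [Finset.sum_sub_distrib, hrel h hh, hcompl h hh, sub_self]

theorem ncard_idx {n : ℕ} (Δ : Finset ((K →+* QBar) × Fin n)) (φ : K →+* QBar) :
    {j : Fin n | (φ, j) ∈ Δ}.ncard = (idx Δ φ).card := by
  rw [← Set.ncard_coe_finset]
  congr 1
  ext j
  rw [Finset.mem_coe, mem_idx]
  rfl

theorem sum_id (Φ : Finset (K →+* QBar)) (f : (K →+* QBar) → ℤ)
    (hodd : ∀ φ, f (cc φ) = -f φ) : ∑ φ, (f φ : ℚ) * sgn Φ φ = 2 * ∑ φ ∈ Φ, (f φ : ℚ) := by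
  classical
  have h2 : ∀ ψ, (f ψ : ℚ) * sgn Φ ψ = 2 * (if ψ ∈ Φ then (f ψ : ℚ) else 0) - f ψ := by
    intro ψ
    unfold sgn
    by_cases h : ψ ∈ Φ
    · rw [if_pos h, if_pos h]; ring
    · rw [if_neg h, if_neg h]; ring
  have h3 : ∑ ψ, (f ψ : ℚ) = 0 := by
    exact_mod_cast congrArg (Int.cast : ℤ → ℚ) (sum_odd f hodd)
  rw [Finset.sum_congr rfl fun ψ _ => h2 ψ, Finset.sum_sub_distrib, h3, ← Finset.mul_sum,
    Finset.sum_ite_mem, Finset.univ_inter]
  ring

/-- the decomposition of a weight with constant excess on a half system -/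
theorem decomp (hS : T_SPLIT) {Φ : Finset (K →+* QBar)} (hΦ : IsCMType K Φ)
    (C : Finset (K →+* QBar)) (hC : ∀ φ, φ ∈ C ↔ cc φ ∉ C) (δ : K) (s₀ : QBar)
    (hCδ : ∀ φ, φ ∈ C ↔ φ δ = s₀) (φ₁ : K →+* QBar) {n : ℕ}
    (Δ : Finset ((K →+* QBar) × Fin n)) (t : ℕ)
    (ht : ∀ φ ∈ C, ((idx Δ φ).card : ℤ) - (idx Δ (cc φ)).card = t) :
    ∃ D : Finset (Finset ((K →+* QBar) × Fin n)),
      (D : Set (Finset ((K →+* QBar) × Fin n))).PairwiseDisjoint id ∧
      (∀ x, x ∈ Δ ↔ ∃ B ∈ D, x ∈ B) ∧ ∀ B ∈ D, TateWeight Φ 1 B ∨ WeilWeight δ B := by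
  classical
  obtain ⟨D, hD1, hD2, hD3⟩ := hS (K →+* QBar) cc C n t Δ cc_cc hC (by
    intro φ hφ
    rw [ncard_idx, ncard_idx]
    have := ht φ hφ
    omega)
  refine ⟨D, hD1, hD2, fun B hB => ?_⟩
  rcases hD3 B hB with ⟨φ, j, l, h⟩ | ⟨f, h⟩
  · exact Or.inl (pair_weight hΦ φ j l B h)
  · right
    have hne : ∃ φ₀, φ₀ ∈ C := by
      by_cases h1 : φ₁ ∈ C
      · exact ⟨_, h1⟩
      · refine ⟨cc φ₁, ?_⟩
        by_contra h2
        exact h1 ((hC φ₁).2 h2)
    obtain ⟨φ₀, hφ₀⟩ := hne
    refine ⟨φ₀, f, fun x => ?_⟩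
    rw [h, hCδ, (hCδ φ₀).1 hφ₀]

end CMC2_

open CMC_ CMC2_ in
theorem tCMC2 : T_EMB → T_QUAD → T_HALF → T_ABS2 → T_SPLIT → T_LOW → T_CMC2 := by
  classical
  intro hE hQ hH hA hSp hLow g b hL hreal K _ _ _ hfin hβ Φ hΦ
  obtain ⟨hirr, p, hp, hp3, hg2, hpg, hcyc⟩ := hL
  obtain ⟨τ, ρ, hρinj, hρne, hρs, hρfix⟩ := hE g p hp hp3 hg2 b hirr hreal hcyc K hfin hβ
  have hcard : Fintype.card (K →+* QBar) = 2 * g := by
    rw [← hfin]
    exact Embeddings.card K QBar
  have hΦ' : ∀ φ, φ ∈ Φ ↔ cc φ ∉ Φ := hΦ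
  let φ₁ : K →+* QBar := ρ 0
  have hmain : TateByDivisors Φ ∨ WeilType Φ := by
    have hrelL : ∀ f : (K →+* QBar) → ℤ, (∀ φ, f (cc φ) = -f φ) →
        (∀ h ∈ HG K, ∑ φ ∈ Φ, f (h φ) = 0) → ∀ s ∈ HG K, ∑ x, f x • LL Φ (s x) = 0 := by
      intro f hodd hsum s hs
      funext h
      rw [Finset.sum_apply]
      have h1 := sum_rel Φ f hodd hsum ((h : Equiv.Perm (K →+* QBar)) * s)
        ((HG K).mul_mem h.2 hs)
      rw [Pi.zero_apply, ← h1]
      refine Finset.sum_congr rfl fun φ _ => ?_
      rw [Pi.smul_apply, zsmul_eq_mul]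
      rfl
    have habs := hA (K →+* QBar) cc (HG K) (HG K → ℚ) (LL Φ) 0 p g (toPerm K τ) ρ hcard hp hp3
      hg2 cc_cc cc_ne (fun s hs x => (hg_cc s hs x).symm) (fun x y => transitive K x y) ⟨τ, rfl⟩
      hρinj hρne hρs hρfix (LL_cc hΦ)
      (by
        intro s hs x y hxy
        funext h
        have h1 := congrFun hxy ⟨(h : Equiv.Perm (K →+* QBar)) * s, (HG K).mul_mem h.2 hs⟩
        exact h1)
    rcases habs with h | h | ⟨C, hC, hG, h⟩
    · -- non-degenerate
      left
      refine tateByDivisors_of_ndeg hΦ ?_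
      intro f hodd hsum
      funext x
      exact h f hodd (hrelL f hodd hsum) x
    · -- impossible
      exfalso
      have h1 := congrFun (h φ₁) 1
      have h2 := congrFun (LL_cc hΦ φ₁) 1
      rw [← h1] at h2
      have h3 : LL Φ φ₁ 1 = sgn Φ φ₁ := rfl
      rw [Pi.sub_apply, h3] at h2
      have h4 : sgn Φ φ₁ = 0 := by
        simp only [Pi.zero_apply] at h2
        linarith
      unfold sgn at h4
      split_ifs at h4 <;> norm_num at h4
    · have hC0 : ∀ φ, φ ∈ C ∨ cc φ ∈ C := by
        intro φ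
        by_cases h1 : φ ∈ C
        · exact Or.inl h1
        · right
          by_contra h2
          exact h1 ((hC φ).2 h2)
      rcases h with h | ⟨hrelC, hall⟩
      · -- the type is `C` or its complement
        left
        refine hH K Φ hΦ' ?_
        have hcase : (∀ φ, φ ∈ Φ ↔ φ ∈ C) ∨ (∀ φ, φ ∈ Φ ↔ φ ∉ C) := by
          have hs : ∀ x ∈ C, ∀ y ∈ C, (x ∈ Φ ↔ y ∈ Φ) := by
            intro x hx y hy
            have h1 : sgn Φ x = sgn Φ y := congrFun (h x hx y hy) 1
            unfold sgn at h1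
            by_cases hx' : x ∈ Φ <;> by_cases hy' : y ∈ Φ
            · simp [hx', hy']
            · rw [if_pos hx', if_neg hy'] at h1; norm_num at h1
            · rw [if_neg hx', if_pos hy'] at h1; norm_num at h1
            · simp [hx', hy']
          have hne : ∃ x₁, x₁ ∈ C := by
            rcases hC0 φ₁ with h1 | h1
            · exact ⟨_, h1⟩
            · exact ⟨_, h1⟩
          obtain ⟨x₁, hx₁⟩ := hne
          by_cases hx₁Φ : x₁ ∈ Φ
          · left
            have hsub : ∀ φ ∈ C, φ ∈ Φ := fun φ hφ => (hs x₁ hx₁ φ hφ).1 hx₁Φ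
            intro φ
            refine ⟨fun h1 => ?_, hsub φ⟩
            rcases hC0 φ with h2 | h2
            · exact h2
            · exact absurd (hsub _ h2) ((hΦ' φ).1 h1)
          · right
            have hsub : ∀ φ ∈ C, φ ∉ Φ := fun φ hφ h1 => hx₁Φ ((hs x₁ hx₁ φ hφ).2 h1)
            intro φ
            refine ⟨fun h1 h2 => hsub φ h2 h1, fun h1 => ?_⟩
            rcases hC0 φ with h2 | h2
            · exact absurd h2 h1
            · exact (hΦ' φ).2 (hsub _ h2)
        intro s hs
        rcases hcase with h1 | h1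
        · rcases hG s hs with h2 | h2
          · left
            intro φ
            rw [h1, h1, h2]
          · right
            intro φ
            rw [h1, h1, h2]
        · rcases hG s hs with h2 | h2
          · left
            intro φ
            rw [h1, h1, h2]
          · right
            intro φ
            rw [h1, h1, h2]
      · -- Weil type
        right
        obtain ⟨δ, r, hr, hδ, s₀, hs₀, hCδ⟩ := hQ K C hC hG
        have hoddC : ∀ φ : K →+* QBar, (if cc φ ∈ C then (1 : ℤ) else -1) =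
            -(if φ ∈ C then (1 : ℤ) else -1) := by
          intro φ
          by_cases h1 : φ ∈ C
          · rw [if_neg ((hC φ).1 h1), if_pos h1]
          · have h2 : cc φ ∈ C := by
              rcases hC0 φ with h3 | h3
              · exact absurd h3 h1
              · exact h3
            rw [if_pos h2, if_neg h1]
            norm_num
        have hsum1 : ∑ φ ∈ Φ, (if φ ∈ C then (1 : ℤ) else -1) = 0 := by
          have h1 := congrFun (hrelC 1 (HG K).one_mem) 1
          rw [Finset.sum_apply, Pi.zero_apply] at h1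
          have h2 : ∑ φ, (((if φ ∈ C then (1 : ℤ) else -1 : ℤ)) : ℚ) * sgn Φ φ = 0 := by
            rw [← h1]
            refine Finset.sum_congr rfl fun φ _ => ?_
            rw [Pi.smul_apply, zsmul_eq_mul]
            rfl
          rw [sum_id Φ (fun φ => if φ ∈ C then (1 : ℤ) else -1) hoddC] at h2
          have h3 : ∑ φ ∈ Φ, (((if φ ∈ C then (1 : ℤ) else -1 : ℤ)) : ℚ) = 0 := by linarith
          have h4 : ((∑ φ ∈ Φ, (if φ ∈ C then (1 : ℤ) else -1) : ℤ) : ℚ) = 0 := by
            rw [Int.cast_sum]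
            exact h3
          exact_mod_cast h4
        have hcount : (Φ.filter (fun φ => φ ∈ C)).card = (Φ.filter (fun φ => φ ∉ C)).card := by
          rw [Finset.sum_ite, Finset.sum_const, Finset.sum_const, nsmul_eq_mul,
            nsmul_eq_mul] at hsum1
          have h2 : ((Φ.filter (fun φ => φ ∈ C)).card : ℤ) =
            (Φ.filter (fun φ => φ ∉ C)).card := by linarith
          exact_mod_cast h2
        have htot : (Φ.filter (fun φ => φ ∈ C)).card + (Φ.filter (fun φ => φ ∉ C)).card =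
            Φ.card := Finset.card_filter_add_card_filter_not _
        have hs₀0 : s₀ ≠ -s₀ := by
          intro h1
          have h2 : s₀ = 0 := by
            have h3 : (2 : QBar) * s₀ = 0 := by linear_combination h1
            rcases mul_eq_zero.1 h3 with h4 | h4
            · norm_num at h4
            · exact h4
          rw [h2] at hs₀
          have h5 : (r : QBar) = 0 := by linear_combination hs₀
          have h6 : r = 0 := by exact_mod_cast h5
          exact hr.ne' h6
        have hφδ : ∀ φ : K →+* QBar, φ δ = s₀ ∨ φ δ = -s₀ := by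
          intro φ
          have h1 : (φ δ) ^ 2 = s₀ ^ 2 := by
            rw [← map_pow, hδ, hs₀]
            simp
          exact sq_eq_sq_iff_eq_or_eq_neg.1 h1
        have hCδ' : ∀ φ : K →+* QBar, φ ∉ C ↔ φ δ = -s₀ := by
          intro φ
          rw [hCδ]
          constructor
          · intro h1
            rcases hφδ φ with h2 | h2
            · exact absurd h2 h1
            · exact h2
          · intro h1 h2
            exact hs₀0 (h2.symm.trans h1)
        refine ⟨δ, r, hr, hδ, fun s hs => ?_, fun n i Δ hΔ => ?_⟩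
        · have hs' : s = s₀ ∨ s = -s₀ := by
            refine sq_eq_sq_iff_eq_or_eq_neg.1 ?_
            rw [hs, hs₀]
          rcases hs' with h1 | h1
          · have h2 : {φ : K →+* QBar | φ ∈ Φ ∧ φ δ = s} =
                ((Φ.filter (fun φ => φ ∈ C) : Finset (K →+* QBar)) : Set (K →+* QBar)) := by
              ext φ
              rw [Finset.coe_filter]
              simp only [Set.mem_ofPred_eq]
              rw [h1, hCδ]
            rw [h2, Set.ncard_coe_finset]
            omega
          · have h2 : {φ : K →+* QBar | φ ∈ Φ ∧ φ δ = s} =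
                ((Φ.filter (fun φ => φ ∉ C) : Finset (K →+* QBar)) : Set (K →+* QBar)) := by
              ext φ
              rw [Finset.coe_filter]
              simp only [Set.mem_ofPred_eq]
              rw [h1, hCδ']
            rw [h2, Set.ncard_coe_finset]
            omega
        · -- the decomposition
          let e : (K →+* QBar) → ℤ := fun φ => ((idx Δ φ).card : ℤ) - (idx Δ (cc φ)).card
          have hodde : ∀ φ, e (cc φ) = -e φ := by
            intro φ
            show ((idx Δ (cc φ)).card : ℤ) - (idx Δ (cc (cc φ))).card =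
              -(((idx Δ φ).card : ℤ) - (idx Δ (cc φ)).card)
            rw [cc_cc]
            ring
          obtain ⟨t, ht⟩ := hall e hodde (hrelL e hodde (excess hΦ hΔ))
          rcases le_total 0 t with h0 | h0
          · obtain ⟨k, hk⟩ := Int.eq_ofNat_of_zero_le h0
            refine decomp hSp hΦ C hC δ s₀ hCδ φ₁ Δ k fun φ hφ => ?_
            have h1 := ht φ
            rw [if_pos hφ, hk] at h1
            exact h1
          · obtain ⟨k, hk⟩ := Int.eq_ofNat_of_zero_le (show 0 ≤ -t by linarith)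
            refine decomp hSp hΦ Cᶜ ?_ δ (-s₀) ?_ φ₁ Δ k fun φ hφ => ?_
            · intro φ
              rw [Finset.mem_compl, Finset.mem_compl, hC φ]
            · intro φ
              rw [Finset.mem_compl, hCδ']
            · have h1 := ht φ
              rw [if_neg (Finset.mem_compl.1 hφ), hk] at h1
              exact h1
  refine ⟨hmain, fun n i Δ hi hΔ => ?_⟩
  rcases hmain with h | ⟨δ, r, hr, hδ, -, hdec⟩
  · exact h n i Δ hΔ
  · obtain ⟨D, hD1, hD2, hD3⟩ := hdec n i Δ hΔ
    have hlow := hLow K g n i δ r D Δ hfin hr hδ hi hΔ.1 hD2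
    refine ⟨D, hD1, hD2, fun B hB => ?_⟩
    rcases hD3 B hB with h1 | h1
    · exact h1
    · exact absurd h1 (hlow B hB)

end Pool.Agent.RFC
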