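import Mathlib
import Pool.Agent.RFC.Targets

set_option autoImplicit false

/-!
# HALF: types induced from an imaginary quadratic subfield

Every Tate weight of codimension `i` has `i` members in `C` and `i` members outside; each pair of a
member in `C` and one outside is a Tate weight of codimension one.
-/

namespace Pool.Agent.RFC

open NumberField
open Pool.Agent.CMT (QBar IsCMType TateByDivisors cc TateWeight Divisorial)
open Pool.Agent.CMTP (HG toPerm)

namespace HALF_

/-- pairs with exactly one member carried into the type -/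
theorem pair_weight {K : Type} [Field K] {C : Finset (K →+* QBar)} {n : ℕ}
    (x y : (K →+* QBar) × Fin n) (hxy : x ≠ y)
    (h : ∀ τ : QBar ≃+* QBar, (((τ : QBar →+* QBar).comp x.1 ∈ C) ↔
      ((τ : QBar →+* QBar).comp y.1 ∉ C))) (B : Finset ((K →+* QBar) × Fin n))
    (hB : ∀ p, p ∈ B ↔ p = x ∨ p = y) : TateWeight C 1 B := by
  classical
  have hB' : B = {x, y} := by
    ext p
    rw [hB]
    simp
  refine ⟨?_, fun τ => ?_⟩
  · rw [hB', Finset.card_pair hxy]
  · by_cases h0 : (τ : QBar →+* QBar).comp x.1 ∈ C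
    · have h1 : {p : (K →+* QBar) × Fin n | p ∈ B ∧ (τ : QBar →+* QBar).comp p.1 ∈ C} = {x} := by
        ext p
        simp only [Set.mem_ofPred_eq, Set.mem_singleton_iff]
        constructor
        · rintro ⟨h2, h3⟩
          rcases (hB p).1 h2 with h4 | h4
          · exact h4
          · exfalso
            rw [h4] at h3
            exact (h τ).1 h0 h3
        · rintro rfl
          exact ⟨(hB _).2 (Or.inl rfl), h0⟩
      rw [h1, Set.ncard_singleton]
    · have h1 : {p : (K →+* QBar) × Fin n | p ∈ B ∧ (τ : QBar →+* QBar).comp p.1 ∈ C} = {y} := by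
        ext p
        simp only [Set.mem_ofPred_eq, Set.mem_singleton_iff]
        constructor
        · rintro ⟨h2, h3⟩
          rcases (hB p).1 h2 with h4 | h4
          · exfalso
            rw [h4] at h3
            exact h0 h3
          · exact h4
        · rintro rfl
          refine ⟨(hB _).2 (Or.inr rfl), ?_⟩
          by_contra h2
          exact h0 ((h τ).2 h2)
      rw [h1, Set.ncard_singleton]

/-- the Tate weights of a type which the Galois group preserves up to complementation -/
theorem divis {K : Type} [Field K] {C : Finset (K →+* QBar)}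
    (hC : ∀ τ : QBar ≃+* QBar, (∀ φ : K →+* QBar, (τ : QBar →+* QBar).comp φ ∈ C ↔ φ ∈ C) ∨
      ∀ φ : K →+* QBar, (τ : QBar →+* QBar).comp φ ∈ C ↔ φ ∉ C) : TateByDivisors C := by
  classical
  intro n i Δ hΔ
  obtain ⟨hcard, hτ⟩ := hΔ
  have hA : (Δ.filter (fun p => p.1 ∈ C)).card = i := by
    have h1 := hτ (RingEquiv.refl QBar)
    have h2 : {p : (K →+* QBar) × Fin n | p ∈ Δ ∧
        ((RingEquiv.refl QBar : QBar ≃+* QBar) : QBar →+* QBar).comp p.1 ∈ C} =
        ((Δ.filter (fun p => p.1 ∈ C) : Finset ((K →+* QBar) × Fin n)) :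
          Set ((K →+* QBar) × Fin n)) := by
      ext p
      have h3 : ((RingEquiv.refl QBar : QBar ≃+* QBar) : QBar →+* QBar).comp p.1 = p.1 := by
        ext z
        rfl
      rw [Set.mem_ofPred_eq, h3, Finset.mem_coe, Finset.mem_filter]
    rw [h2, Set.ncard_coe_finset] at h1
    exact h1
  have hA' : (Δ.filter (fun p => ¬ p.1 ∈ C)).card = i := by
    have h1 := Finset.card_filter_add_card_filter_not (s := Δ) (fun p => p.1 ∈ C)
    omega
  let f := Finset.equivOfCardEq (hA.trans hA'.symm)
  let e : (K →+* QBar) × Fin n → (K →+* QBar) × Fin n := fun p =>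
    if hp : p ∈ Δ.filter (fun p => p.1 ∈ C) then (f ⟨p, hp⟩).1 else p
  have he : ∀ p, p ∈ Δ.filter (fun p => p.1 ∈ C) → e p ∈ Δ.filter (fun p => ¬ p.1 ∈ C) := by
    intro p hp
    simp only [e, dif_pos hp]
    exact (f ⟨p, hp⟩).2
  have hinj : ∀ p q, p ∈ Δ.filter (fun p => p.1 ∈ C) → q ∈ Δ.filter (fun p => p.1 ∈ C) →
      e p = e q → p = q := by
    intro p q hp hq hpq
    simp only [e, dif_pos hp, dif_pos hq] at hpq
    exact congrArg Subtype.val (f.injective (Subtype.ext hpq))
  have hsurj : ∀ q, q ∈ Δ.filter (fun p => ¬ p.1 ∈ C) →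
      ∃ p, p ∈ Δ.filter (fun p => p.1 ∈ C) ∧ e p = q := by
    intro q hq
    refine ⟨(f.symm ⟨q, hq⟩).1, (f.symm ⟨q, hq⟩).2, ?_⟩
    have hp : (f.symm ⟨q, hq⟩).1 ∈ Δ.filter (fun p => p.1 ∈ C) := (f.symm ⟨q, hq⟩).2
    simp only [e, dif_pos hp]
    rw [Subtype.coe_eta, Equiv.apply_symm_apply]
  let B : (K →+* QBar) × Fin n → Finset ((K →+* QBar) × Fin n) := fun p => {p, e p}
  have hBmem : ∀ p q, q ∈ B p ↔ q = p ∨ q = e p := by
    intro p q
    simp [B]
  refine ⟨(Δ.filter (fun p => p.1 ∈ C)).image B, ?_, ?_, ?_⟩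
  · intro B1 h1 B2 h2 hne
    rw [Finset.mem_coe, Finset.mem_image] at h1 h2
    obtain ⟨p, hp, rfl⟩ := h1
    obtain ⟨q, hq, rfl⟩ := h2
    rw [Function.onFun, id, id, Finset.disjoint_left]
    intro z hz1 hz2
    rw [hBmem] at hz1 hz2
    have hp1 := (Finset.mem_filter.1 hp).2
    have hq1 := (Finset.mem_filter.1 hq).2
    have hp2 := (Finset.mem_filter.1 (he p hp)).2
    have hq2 := (Finset.mem_filter.1 (he q hq)).2
    rcases hz1 with hz1 | hz1
    · rcases hz2 with hz2 | hz2
      · exact hne (by rw [← hz1, ← hz2])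
      · apply hq2
        rw [← hz2, hz1]
        exact hp1
    · rcases hz2 with hz2 | hz2
      · apply hp2
        rw [← hz1, hz2]
        exact hq1
      · exact hne (by rw [hinj p q hp hq (hz1.symm.trans hz2)])
  · intro p
    constructor
    · intro hp
      by_cases h0 : p.1 ∈ C
      · exact ⟨B p, Finset.mem_image_of_mem _ (Finset.mem_filter.2 ⟨hp, h0⟩),
          (hBmem _ _).2 (Or.inl rfl)⟩
      · obtain ⟨q, hq, hqp⟩ := hsurj p (Finset.mem_filter.2 ⟨hp, h0⟩)
        exact ⟨B q, Finset.mem_image_of_mem _ hq, (hBmem _ _).2 (Or.inr hqp.symm)⟩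
    · rintro ⟨B1, h1, h2⟩
      rw [Finset.mem_image] at h1
      obtain ⟨q, hq, rfl⟩ := h1
      rw [hBmem] at h2
      rcases h2 with h2 | h2
      · rw [h2]
        exact (Finset.mem_filter.1 hq).1
      · rw [h2]
        exact (Finset.mem_filter.1 (he q hq)).1
  · intro B1 h1
    rw [Finset.mem_image] at h1
    obtain ⟨p, hp, rfl⟩ := h1
    have hp1 := (Finset.mem_filter.1 hp).2
    have hp2 := (Finset.mem_filter.1 (he p hp)).2
    refine pair_weight p (e p) ?_ ?_ (B p) (hBmem p)
    · intro h
      apply hp2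
      rw [← h]
      exact hp1
    · intro τ
      rcases hC τ with h | h
      · rw [h, h]
        tauto
      · rw [h, h]
        tauto

end HALF_

/-- HALF: types induced from an imaginary quadratic subfield -/
theorem tHALF : T_HALF := by
  intro K _ _ _ C _ hC
  apply HALF_.divis
  intro τ
  exact hC (toPerm K τ) ⟨τ, rfl⟩

end Pool.Agent.RFC
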